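import Pool.Agent.MelL.Def

/-!
# Cyclically reduced primitive words (module L6, words)

`W f n`: the element of the free group read from the sequence `f : ℤ → Fin k × Bool` at `0 .. n - 1`.
Among all `n ≥ 1` such that `r` is conjugate to a power `(W f n)^e`, `e ≥ 1`, `f` of period `n`, take the
smallest one: `f` is cyclically reduced (otherwise delete two letters) and has no smaller period (otherwise
take the greatest common divisor of the periods).
-/

open Finset

namespace Pool.Agent.MelL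

variable {k : ℕ}

/-- The element of the free group of the first `n` letters of a sequence. -/
def W (f : ℤ → Fin k × Bool) (n : ℕ) : FreeGroup (Fin k) :=
  FreeGroup.mk (List.ofFn fun i : Fin n => f ((i : ℕ) : ℤ))

theorem W_congr {f g : ℤ → Fin k × Bool} {n : ℕ} (h : ∀ i : ℕ, i < n → f i = g i) : W f n = W g n := by
  unfold W
  congr 1
  refine List.ofFn_inj.mpr ?_
  funext i
  exact h i i.2

theorem W_zero (f : ℤ → Fin k × Bool) : W f 0 = 1 := by
  unfold W
  rw [List.ofFn_zero]
  rfl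

theorem W_succ (f : ℤ → Fin k × Bool) (n : ℕ) :
    W f (n + 1) = FreeGroup.mk [f 0] * W (fun i => f (1 + i)) n := by
  unfold W
  rw [List.ofFn_succ, FreeGroup.mul_mk, List.singleton_append]
  congr 1
  refine congrArg₂ List.cons ?_ ?_
  · simp
  · refine List.ofFn_inj.mpr ?_
    funext i
    simp [add_comm]

theorem W_add (f : ℤ → Fin k × Bool) (m n : ℕ) :
    W f (m + n) = W f m * W (fun i => f (m + i)) n := by
  induction m generalizing f with
  | zero => simp [W_zero]
  | succ m ih =>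
    rw [show m + 1 + n = (m + n) + 1 by ring, W_succ, ih, W_succ, mul_assoc]
    congr 2
    refine W_congr fun i _ => ?_
    congr 1
    push_cast
    ring

theorem W_shift {f : ℤ → Fin k × Bool} {n : ℕ} (hf : ∀ z, f (n + z) = f z) (j : ℕ) :
    W f n = W f j * W (fun i => f (j + i)) n * (W f j)⁻¹ := by
  have h1 := W_add f n j
  have h2 := W_add f j n
  rw [add_comm j n, h1] at h2
  rw [← h2, W_congr (f := fun i => f (n + i)) (g := f) fun i _ => hf i]
  group

theorem W_mul {f : ℤ → Fin k × Bool} {d : ℕ} (hf : ∀ z, f (d + z) = f z) (q : ℕ) :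
    W f (d * q) = W f d ^ q := by
  induction q with
  | zero => simp [W_zero]
  | succ q ih =>
    rw [pow_succ', mul_add, mul_one, add_comm, W_add, ← ih]
    congr 1
    exact W_congr fun i _ => hf i

theorem per_mul {f : ℤ → Fin k × Bool} {n : ℤ} (hf : ∀ z, f (n + z) = f z) (c z : ℤ) :
    f (n * c + z) = f z := by
  have h1 : Function.Periodic f n := fun x => by rw [add_comm]; exact hf x
  have h2 := h1.int_mul c z
  rw [add_comm, mul_comm]
  exact h2

/-- The candidates. -/
def Good (r : FreeGroup (Fin k)) (n : ℕ) : Prop :=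
  0 < n ∧ ∃ f : ℤ → Fin k × Bool, (∀ z, f (n + z) = f z) ∧ ∃ e : ℕ, 1 ≤ e ∧ ∃ g : FreeGroup (Fin k),
    r = g * W f n ^ e * g⁻¹

theorem good_ex (r : FreeGroup (Fin k)) (hr : r ≠ 1) : ∃ n, Good r n := by
  have h0 : 0 < r.toWord.length := by
    rw [List.length_pos_iff]
    intro h
    exact hr (FreeGroup.toWord_eq_nil_iff.mp h)
  have hm : ∀ z : ℤ, (z % (r.toWord.length : ℤ)).toNat < r.toWord.length := by
    intro z
    have h1 := Int.emod_nonneg z (b := (r.toWord.length : ℤ)) (by omega)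
    have h2 := Int.emod_lt_of_pos z (b := (r.toWord.length : ℤ)) (by omega)
    omega
  refine ⟨_, h0, fun z => r.toWord[(z % (r.toWord.length : ℤ)).toNat]'(hm z), ?_, 1, le_rfl, 1, ?_⟩
  · intro z
    have h1 : ((r.toWord.length : ℤ) + z) % (r.toWord.length : ℤ) = z % (r.toWord.length : ℤ) := by simp
    simp only [h1]
  · rw [one_mul, inv_one, mul_one, pow_one]
    have h1 : List.ofFn (fun i : Fin r.toWord.length => r.toWord[(((i : ℕ) : ℤ) %
        (r.toWord.length : ℤ)).toNat]'(hm _)) = r.toWord := by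
      refine Eq.trans (List.ofFn_inj.mpr ?_) (List.ofFn_get r.toWord)
      funext i
      have h2 : (((i : ℕ) : ℤ) % (r.toWord.length : ℤ)).toNat = i := by
        rw [Int.emod_eq_of_lt (by omega) (by exact_mod_cast i.2)]
        simp
      simp [h2]
    unfold W
    rw [h1, FreeGroup.mk_toWord]

theorem good_red {r : FreeGroup (Fin k)} (hr : r ≠ 1) {n : ℕ} (f : ℤ → Fin k × Bool) (hf : ∀ z, f (n + z) = f z)
    (e : ℕ) (he : 1 ≤ e) (g : FreeGroup (Fin k)) (hg : r = g * W f n ^ e * g⁻¹) (hn : 0 < n)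
    (hmin : ∀ m, m < n → ¬ Good r m) (j : ℕ) (h1 : (f j).1 = (f (j + 1)).1) : (f j).2 = (f (j + 1)).2 := by
  by_contra h2
  have hn2 : 2 ≤ n := by
    by_contra h3
    have h4 : n = 1 := by omega
    subst h4
    apply h2
    have := hf j
    rw [← this]
    congr 2
    push_cast
    ring
  obtain ⟨m, rfl⟩ : ∃ m, n = 2 + m := ⟨n - 2, by omega⟩
  set f' : ℤ → Fin k × Bool := fun i => f (j + i) with hf'
  have h3 : W f' 2 = 1 := by
    rw [show (2 : ℕ) = 0 + 1 + 1 by norm_num, W_succ, W_succ, W_zero, mul_one]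
    have h5 : f' 0 = f j := by simp [hf']
    have h6 : f' (1 + 0) = f (j + 1) := by simp [hf']
    rw [h5, h6, FreeGroup.mul_mk]
    have h7 : f (j + 1) = ((f j).1, !(f j).2) := by
      refine Prod.ext h1.symm ?_
      cases h8 : (f j).2 <;> cases h9 : (f (j + 1)).2 <;> simp_all
    rw [h7]
    have h8 : FreeGroup.Red.Step ([f j] ++ [((f j).1, !(f j).2)]) [] := by
      have := @FreeGroup.Red.Step.not (Fin k) [] [] (f j).1 (f j).2
      simpa using this
    exact Quot.sound h8
  have h4 : W f (2 + m) = W f j * W (fun i => f' (2 + i)) m * (W f j)⁻¹ := by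
    rw [W_shift hf j, W_add, h3, one_mul]
    rfl
  have h5 : r = (g * W f j) * W (fun i => f' (2 + i)) m ^ e * (g * W f j)⁻¹ := by
    rw [hg, h4, conj_pow]
    group
  rcases Nat.eq_zero_or_pos m with rfl | hm
  · rw [W_zero, one_pow, mul_one, mul_inv_cancel] at h5
    exact hr h5
  · refine hmin m (by omega) ⟨hm, fun i => f' (2 + i % m), ?_, e, he, g * W f j, ?_⟩
    · intro z
      simp
    · rw [h5]
      congr 3
      refine W_congr fun i hi => ?_
      rw [Int.emod_eq_of_lt (by omega) (by exact_mod_cast hi)]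

theorem good_prim {r : FreeGroup (Fin k)} {n : ℕ} (f : ℤ → Fin k × Bool) (hf : ∀ z, f (n + z) = f z)
    (e : ℕ) (he : 1 ≤ e) (g : FreeGroup (Fin k)) (hg : r = g * W f n ^ e * g⁻¹) (hn : 0 < n)
    (hmin : ∀ m, m < n → ¬ Good r m) (c : ℕ) (hc0 : 0 < c) (hc : c < n) (h : ∀ z, f (c + z) = f z) : False := by
  have hd : ∀ z, f ((Nat.gcd c n : ℕ) + z) = f z := by
    intro z
    rw [Nat.gcd_eq_gcd_ab, add_assoc, per_mul h, per_mul hf]
  have hd0 : 0 < Nat.gcd c n := Nat.gcd_pos_of_pos_left _ hc0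
  obtain ⟨q, hq⟩ := Nat.gcd_dvd_right c n
  refine hmin (Nat.gcd c n) (lt_of_le_of_lt (Nat.le_of_dvd hc0 (Nat.gcd_dvd_left c n)) hc)
    ⟨hd0, f, hd, q * e, ?_, g, ?_⟩
  · have : q ≠ 0 := by
      rintro rfl
      omega
    exact Nat.one_le_iff_ne_zero.mpr (Nat.mul_ne_zero this (by omega))
  · rw [pow_mul, ← W_mul hd, ← hq]
    exact hg

theorem exists_cyc {k : ℕ} (r : FreeGroup (Fin k)) (hr : r ≠ 1) :
    ∃ (n : ℕ) (_ : NeZero n) (a : ZMod n → Fin k × Bool) (e : ℕ) (g : FreeGroup (Fin k)),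
      CRed a ∧ Prim a ∧ 1 ≤ e ∧ r = g * word a ^ e * g⁻¹ := by
  classical
  have hex := good_ex r hr
  obtain ⟨hn, f, hf, e, he, g, hg⟩ := Nat.find_spec hex
  have hmin : ∀ m, m < Nat.find hex → ¬ Good r m := fun m hm => Nat.find_min hex hm
  generalize Nat.find hex = n at *
  have hne : NeZero n := ⟨by omega⟩
  let a : ZMod n → Fin k × Bool := fun i => f (i.val : ℤ)
  have ha : ∀ z : ℤ, a (z : ZMod n) = f z := by
    intro z
    show f ((z : ZMod n).val : ℤ) = f z
    rw [ZMod.val_intCast]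
    conv_rhs => rw [← Int.mul_ediv_add_emod z n]
    rw [per_mul hf]
  have hi : ∀ i : ZMod n, i = (((i.val : ℕ) : ℤ) : ZMod n) := by
    intro i
    rw [Int.cast_natCast, ZMod.natCast_zmod_val]
  refine ⟨n, hne, a, e, g, ?_, ?_, he, ?_⟩
  · intro i
    rw [hi i, ← Int.cast_one, ← Int.cast_add, ha, ha]
    exact good_red hr f hf e he g hg hn hmin i.val
  · intro c hc
    by_contra h0
    refine good_prim f hf e he g hg hn hmin c.val ?_ (ZMod.val_lt c) ?_
    · exact Nat.pos_of_ne_zero fun h1 => h0 ((ZMod.val_eq_zero c).mp h1)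
    · intro z
      have h1 := hc (z : ZMod n)
      rw [hi c, ← Int.cast_add, ha, ha, add_comm] at h1
      exact h1
  · rw [hg]
    congr 3
    unfold W word
    congr 1
    refine List.ofFn_inj.mpr ?_
    funext i
    rw [← Int.cast_natCast (R := ZMod n), ha]

end Pool.Agent.MelL
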