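import Pool.Agent.MelL.TfA
import Pool.Agent.MelL.Cyc

/-!
# Torsion-free one-relator groups and Mel'nikov groups (module L6)

`exists_cyc` (in `Cyc`): every `r ≠ 1` of the free group is conjugate to `word b`, `b` cyclically reduced of length `≥ 1`
(`FreeGroup.toWord`, delete the first and the last letter while they are inverse), and `b` is a power of a primitive
cyclic word: there are `n ≥ 1`, `a : ZMod n → _` with `CRed a`, `Prim a`, `e ≥ 1`, and `r` conjugate to `(word a)^e`
(take the smallest period `n` of `b` which divides the length; the periods of a cyclic word form a subgroup of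
`ZMod m`).
`locInd_tf`: `HasRel 1 N`, `N` torsion-free.  `N ≃ PresentedGroup R`, `R = ∅` (or `r = 1`): free, `locInd_free`.  `R = {r}`,
`r ≠ 1`: `r ~ (word a)^e`; `word a` has finite order in `N`, so it is trivial in `N`, and the kernel is the normal
closure of `word a`: `loc_ind`.
`tf_of_melnikov` (in `TfA`): an infinite Mel'nikov group is torsion-free: a subgroup of prime order `p` is closed of
infinite index in the residually finite group `G` and is isomorphic to `PresentedGroup {y ^ p}`:
`closed_not_OR` of MelD.
-/

open Finset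

namespace Pool.Agent.MelL

open Pool.Agent.MelG (HasRel IsMelnikov)

theorem locInd_of_bot {k : ℕ} {N : Type} [Group N] {R : Set (FreeGroup (Fin k))}
    (e : N ≃* PresentedGroup R) (h : Subgroup.normalClosure R = ⊥) : LocInd N := by
  have e2 : PresentedGroup R ≃* FreeGroup (Fin k) :=
    (QuotientGroup.quotientMulEquivOfEq h).trans QuotientGroup.quotientBot
  exact locInd_equiv (e.trans e2).symm (locInd_free (Fin k))

theorem locInd_tf {N : Type} [Group N] (h : HasRel 1 N) (htf : ∀ g : N, ∀ m : ℕ, 0 < m → g ^ m = 1 → g = 1) :
    LocInd N := by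
  obtain ⟨y, R, hR, hR1, ⟨e⟩⟩ := h
  rcases Nat.lt_or_ge R.ncard 1 with h0 | h1
  · have h2 : R = ∅ := (Set.ncard_eq_zero hR).mp (by omega)
    subst h2
    exact locInd_of_bot e Subgroup.normalClosure_empty
  · obtain ⟨r, rfl⟩ := Set.ncard_eq_one.mp (le_antisymm hR1 h1)
    by_cases hr : r = 1
    · subst hr
      refine locInd_of_bot e ?_
      rw [eq_bot_iff]
      refine Subgroup.normalClosure_le_normal ?_
      rintro _ rfl
      exact Subgroup.one_mem _
    · obtain ⟨n, _, a, m, g, ha, hp, hm, hrg⟩ := exists_cyc r hr
      exact locInd_of_cyc r a m g ha hp hm hrg e htf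

theorem locInd_melnikov {G : Type} [Group G] [Infinite G] (hG : IsMelnikov G) : LocInd G := by
  have h1 : HasRel 1 (⊤ : Subgroup G) := hG.2 ⊤ inferInstance
  refine locInd_equiv Subgroup.topEquiv (locInd_tf h1 fun g m hm hg => ?_)
  exact Subtype.ext (tf_of_melnikov hG g.1 m hm (congrArg Subtype.val hg))

end Pool.Agent.MelL
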