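import Mathlib

/-!
# Cyclic words, cells in labelled graphs: definitions

Project MelL: torsion-free one-relator groups are locally indicable (Brodskii, Howie), by stackings
(Louder-Wilton), in algebraic form.

* A letter is a pair `(x, b)`, generator and exponent (`true`: `x`, `false`: `x⁻¹`), as in `FreeGroup`.
* A cyclic word of length `n ≥ 1`: `a : ZMod n → Fin k × Bool`.  `CRed a`: cyclically reduced.  `Prim a`: not a
  proper power (no rotation fixes it).  `word a`: its element of the free group, read from the position `0`.
* `sp a i`, `ep a i`: the positions (`i` or `i + 1`) where the edge of the `i`-th letter begins and ends, for the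
  orientation of the generator.
* `Compat a h`: the order of the positions given by `h` is compatible with the edges (a stacking if `h` is
  injective).
* Labelled graph: a type `Z` with permutations `σ x`; edges are pairs `(z, x)`, from `z` to `σ x z`; finite
  subgraphs are finite sets of edges.  `step σ l` moves along the letter `l`.
* A cell is a closed path reading `a`: `p : ZMod n → Z` with `p (i + 1) = step σ (a i) (p i)`; `edg a p i` its `i`-th
  edge.
* `H1Zero`: every rational cochain on the edges which vanishes on the cells is a coboundary.
* `walk`, `Uses`: the end of a path, and the condition that all its edges are in `E`.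
-/

open Finset

namespace Pool.Agent.MelL

variable {k n : ℕ}

/-- Cyclically reduced. -/
def CRed (a : ZMod n → Fin k × Bool) : Prop := ∀ i, (a i).1 = (a (i + 1)).1 → (a i).2 = (a (i + 1)).2

/-- Not a proper power. -/
def Prim (a : ZMod n → Fin k × Bool) : Prop := ∀ c, (∀ i, a (i + c) = a i) → c = 0

/-- The element of the free group. -/
def word (a : ZMod n → Fin k × Bool) : FreeGroup (Fin k) :=
  FreeGroup.mk (List.ofFn fun i : Fin n => a ((i : ℕ) : ZMod n))

/-- The beginning of the edge of the `i`-th letter. -/
def sp (a : ZMod n → Fin k × Bool) (i : ZMod n) : ZMod n := if (a i).2 then i else i + 1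

/-- The end of the edge of the `i`-th letter. -/
def ep (a : ZMod n → Fin k × Bool) (i : ZMod n) : ZMod n := if (a i).2 then i + 1 else i

/-- Compatibility of an order of the positions with the edges. -/
def Compat (a : ZMod n → Fin k × Bool) (h : ZMod n → ℕ) : Prop :=
  ∀ i j, (a i).1 = (a j).1 → (h (sp a i) < h (sp a j) ↔ h (ep a i) < h (ep a j))

section

variable {Z : Type} (σ : Fin k → Equiv.Perm Z)

/-- The step along a letter. -/
def step (l : Fin k × Bool) : Equiv.Perm Z := if l.2 then σ l.1 else (σ l.1)⁻¹

/-- The edge of the step along a letter. -/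
def ledge (l : Fin k × Bool) (z : Z) : Z × Fin k := if l.2 then (z, l.1) else (step σ l z, l.1)

/-- Closed paths reading the cyclic word. -/
def IsCell (a : ZMod n → Fin k × Bool) (p : ZMod n → Z) : Prop := ∀ i, p (i + 1) = step σ (a i) (p i)

/-- The edges of a cell. -/
def edg (a : ZMod n → Fin k × Bool) (p : ZMod n → Z) (i : ZMod n) : Z × Fin k := (p (sp a i), (a i).1)

/-- The vertices of a finite set of edges. -/
def verts [DecidableEq Z] (E : Finset (Z × Fin k)) : Finset Z := E.image Prod.fst ∪ E.image fun e => σ e.2 e.1

/-- The first cohomology with rational coefficients vanishes. -/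
def H1Zero [NeZero n] (a : ZMod n → Fin k × Bool) (E : Finset (Z × Fin k)) (C : Finset (ZMod n → Z)) : Prop :=
  ∀ φ : Z × Fin k → ℚ, (∀ p ∈ C, ∑ i : ZMod n, (if (a i).2 then 1 else -1) * φ (edg a p i) = 0) →
    ∃ f : Z → ℚ, ∀ e ∈ E, φ e = f (σ e.2 e.1) - f e.1

/-- The end of a path. -/
def walk : List (Fin k × Bool) → Z → Z
  | [], z => z
  | l :: t, z => walk t (step σ l z)

/-- All edges of the path are in `E`. -/
def Uses (E : Finset (Z × Fin k)) : List (Fin k × Bool) → Z → Prop
  | [], _ => True
  | l :: t, z => ledge σ l z ∈ E ∧ Uses E t (step σ l z)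

end

end Pool.Agent.MelL
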