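import Pool.Agent.MelL.Def

/-!
# The inequality for cells (module L2)

Cells `p, q` with `p i = q i` are equal.  So over a vertex `y` the map `(q, j) ↦ h j` on the pairs with `q ∈ C`,
`q j = y` is injective, and over an edge `e` the map `(q, j) ↦ h (sp a j)` on the pairs with `edg a q j = e` is
injective (`sp a j = sp a j'` with equal generators and `j ≠ j'` contradicts `CRed`); by `Compat` the order of the
traversals of `e` may be read at either end.  `TV p` = the set of the `i` such that `(p, i)` is the largest over the vertex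
`p i`; `TE p` = the set of the `i` such that `(p, i)` is the largest traversal of its edge.
* `∑ p ∈ C, |TV p| = |verts|`, `∑ p ∈ C, |TE p| = |E|` (every vertex and every edge is visited by `h2`).
* `i ∈ TV p → i ∈ TE p ∧ i - 1 ∈ TE p`.
* `TV p` is non empty (the maximum of `h`), `TE p` is not everything (`i₀` the minimum of `h`: the traversal
  `(p, i₀)` is the lowest at its end `i₀`, and there is another traversal of the edge).
* So `|TV p| + 1 ≤ |TE p|`: `TV p ⊆ TE p`, and there is `i ∈ TE p` with `i - 1 ∉ TE p`, so `i ∉ TV p`.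
-/

set_option linter.unusedSectionVars false

open Finset

namespace Pool.Agent.MelL

variable {k n : ℕ}

/-- A cell is determined by its value at one position. -/
theorem cell_ext [NeZero n] {Z : Type} {σ : Fin k → Equiv.Perm Z} {a : ZMod n → Fin k × Bool} {p q : ZMod n → Z}
    (hp : IsCell σ a p) (hq : IsCell σ a q) {i : ZMod n} (e : p i = q i) : p = q := by
  have key : ∀ m : ℕ, p (i + m) = q (i + m) := by
    intro m
    induction m with
    | zero => simpa using e
    | succ m ih =>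
      have h1 : i + ((m + 1 : ℕ) : ZMod n) = i + m + 1 := by push_cast; ring
      rw [h1, hp, hq, ih]
  funext j
  have h1 := key (j - i).val
  rw [ZMod.natCast_zmod_val] at h1
  simpa using h1

/-- The end of the edge. -/
theorem cell_ep {Z : Type} {σ : Fin k → Equiv.Perm Z} {a : ZMod n → Fin k × Bool} {p : ZMod n → Z}
    (hp : IsCell σ a p) (i : ZMod n) : p (ep a i) = σ (a i).1 (p (sp a i)) := by
  have h1 := hp i
  unfold ep sp
  unfold step at h1
  cases hb : (a i).2 with
  | true =>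
    rw [hb] at h1
    simpa using h1
  | false =>
    rw [hb] at h1
    simp only [Bool.false_eq_true, if_false] at h1 ⊢
    rw [h1]
    exact ((σ (a i).1).apply_symm_apply (p i)).symm

/-- Two traversals of an edge of the same generator from the same position. -/
theorem sp_inj {a : ZMod n → Fin k × Bool} (hr : CRed a) {i j : ZMod n} (hx : (a i).1 = (a j).1)
    (e : sp a i = sp a j) : i = j := by
  unfold sp at e
  cases hi : (a i).2 with
  | true =>
    cases hj : (a j).2 with
    | true =>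
      rw [hi, hj] at e
      simpa using e
    | false =>
      rw [hi, hj] at e
      simp only [if_true, Bool.false_eq_true, if_false] at e
      exfalso
      have h1 := hr j (by rw [← e]; exact hx.symm)
      rw [← e, hi, hj] at h1
      exact Bool.false_ne_true h1
  | false =>
    cases hj : (a j).2 with
    | true =>
      rw [hi, hj] at e
      simp only [if_true, Bool.false_eq_true, if_false] at e
      exfalso
      have h1 := hr i (by rw [e]; exact hx)
      rw [e, hi, hj] at h1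
      exact Bool.false_ne_true h1
    | false =>
      rw [hi, hj] at e
      simpa using e

section

open Classical in
/-- The positions which are largest over their vertex. -/
noncomputable def TV [NeZero n] {Z : Type} (h : ZMod n → ℕ) (C : Finset (ZMod n → Z)) (p : ZMod n → Z) :
    Finset (ZMod n) :=
  Finset.univ.filter fun i => ∀ q ∈ C, ∀ j, q j = p i → h j ≤ h i

open Classical in
/-- The positions which are largest among the traversals of their edge. -/
noncomputable def TE [NeZero n] {Z : Type} (a : ZMod n → Fin k × Bool) (h : ZMod n → ℕ)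
    (C : Finset (ZMod n → Z)) (p : ZMod n → Z) : Finset (ZMod n) :=
  Finset.univ.filter fun i => ∀ q ∈ C, ∀ j, edg a q j = edg a p i → h (sp a j) ≤ h (sp a i)

variable [NeZero n] {Z : Type} {σ : Fin k → Equiv.Perm Z} {a : ZMod n → Fin k × Bool} {h : ZMod n → ℕ}
  {C : Finset (ZMod n → Z)}

theorem mem_TV {p : ZMod n → Z} {i : ZMod n} : i ∈ TV h C p ↔ ∀ q ∈ C, ∀ j, q j = p i → h j ≤ h i := by
  classical
  unfold TV
  rw [Finset.mem_filter]
  exact ⟨fun h1 => h1.2, fun h1 => ⟨Finset.mem_univ _, h1⟩⟩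

theorem mem_TE {p : ZMod n → Z} {i : ZMod n} :
    i ∈ TE a h C p ↔ ∀ q ∈ C, ∀ j, edg a q j = edg a p i → h (sp a j) ≤ h (sp a i) := by
  classical
  unfold TE
  rw [Finset.mem_filter]
  exact ⟨fun h1 => h1.2, fun h1 => ⟨Finset.mem_univ _, h1⟩⟩

/-- Largest over an end of the edge implies largest over the edge. -/
theorem mem_TE_of_end (hc : Compat a h) (hC : ∀ p ∈ C, IsCell σ a p) {p : ZMod n → Z} (hp : p ∈ C) {i m : ZMod n}
    (hm : m ∈ TV h C p) (hi : sp a i = m ∨ ep a i = m) : i ∈ TE a h C p := by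
  rw [mem_TV] at hm
  rw [mem_TE]
  intro q hq j e
  have e1 : q (sp a j) = p (sp a i) := congrArg Prod.fst e
  have e2 : (a j).1 = (a i).1 := congrArg Prod.snd e
  rcases hi with hi | hi
  · subst hi
    exact hm q hq _ e1
  · subst hi
    have e3 : q (ep a j) = p (ep a i) := by
      rw [cell_ep (hC q hq), cell_ep (hC p hp), e1, e2]
    have h1 := hm q hq _ e3
    by_contra h2
    push Not at h2
    exact absurd ((hc i j e2.symm).1 h2) (not_lt.mpr h1)

theorem TV_sub (hc : Compat a h) (hC : ∀ p ∈ C, IsCell σ a p) {p : ZMod n → Z} (hp : p ∈ C) {i : ZMod n}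
    (hm : i ∈ TV h C p) : i ∈ TE a h C p ∧ i - 1 ∈ TE a h C p := by
  refine ⟨mem_TE_of_end hc hC hp hm ?_, mem_TE_of_end hc hC hp hm ?_⟩
  · unfold sp ep
    cases (a i).2 with
    | true => left; simp
    | false => right; simp
  · unfold sp ep
    cases (a (i - 1)).2 with
    | true => right; simp
    | false => left; simp

theorem TV_nonempty (p : ZMod n → Z) : (TV h C p).Nonempty := by
  obtain ⟨i, _, hi⟩ := Finset.exists_max_image (Finset.univ : Finset (ZMod n)) h ⟨0, Finset.mem_univ _⟩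
  exact ⟨i, mem_TV.2 fun _ _ j _ => hi j (Finset.mem_univ _)⟩

theorem edg_inj (hr : CRed a) (hh : Function.Injective h) (hC : ∀ p ∈ C, IsCell σ a p) {p q : ZMod n → Z}
    (hp : p ∈ C) (hq : q ∈ C) {i j : ZMod n} (e : edg a p i = edg a q j) (e' : h (sp a i) = h (sp a j)) :
    p = q ∧ i = j := by
  have e1 : p (sp a i) = q (sp a j) := congrArg Prod.fst e
  have e2 : (a i).1 = (a j).1 := congrArg Prod.snd e
  have e3 := sp_inj hr e2 (hh e')
  subst e3
  exact ⟨cell_ext (hC p hp) (hC q hq) e1, rfl⟩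

theorem TE_ne (hr : CRed a) (hh : Function.Injective h) (hc : Compat a h) {E : Finset (Z × Fin k)}
    (hC : ∀ p ∈ C, IsCell σ a p) (hE : ∀ p ∈ C, ∀ i, edg a p i ∈ E)
    (h2 : ∀ e ∈ E, ∃ p ∈ C, ∃ i, ∃ q ∈ C, ∃ j, (p, i) ≠ (q, j) ∧ edg a p i = e ∧ edg a q j = e)
    {p : ZMod n → Z} (hp : p ∈ C) : ∃ i, i ∉ TE a h C p := by
  obtain ⟨i, _, hi⟩ := Finset.exists_min_image (Finset.univ : Finset (ZMod n)) h ⟨0, Finset.mem_univ _⟩
  refine ⟨i, fun hT => ?_⟩
  rw [mem_TE] at hT
  -- another traversal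
  obtain ⟨q, hq, j, hne, e⟩ : ∃ q ∈ C, ∃ j, (q, j) ≠ (p, i) ∧ edg a q j = edg a p i := by
    obtain ⟨q, hq, j, q', hq', j', hne, e, e'⟩ := h2 _ (hE p hp i)
    by_cases h3 : (q, j) = (p, i)
    · exact ⟨q', hq', j', fun h4 => hne (h3.trans h4.symm), e'⟩
    · exact ⟨q, hq, j, h3, e⟩
  have e2 : (a j).1 = (a i).1 := congrArg Prod.snd e
  have h3 := hT q hq j e
  have h4 : h (sp a j) ≠ h (sp a i) := by
    intro h5
    obtain ⟨h6, h7⟩ := edg_inj hr hh hC hq hp e h5
    exact hne (by rw [h6, h7])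
  have h5 : h (sp a j) < h (sp a i) := lt_of_le_of_ne h3 h4
  have h6 := (hc j i e2).1 h5
  cases hb : (a i).2 with
  | true =>
    have : sp a i = i := by unfold sp; rw [hb]; simp
    rw [this] at h5
    exact absurd (hi _ (Finset.mem_univ _)) (not_le.mpr h5)
  | false =>
    have : ep a i = i := by unfold ep; rw [hb]; simp
    rw [this] at h6
    exact absurd (hi _ (Finset.mem_univ _)) (not_le.mpr h6)

theorem card_TV_lt (hr : CRed a) (hh : Function.Injective h) (hc : Compat a h) {E : Finset (Z × Fin k)}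
    (hC : ∀ p ∈ C, IsCell σ a p) (hE : ∀ p ∈ C, ∀ i, edg a p i ∈ E)
    (h2 : ∀ e ∈ E, ∃ p ∈ C, ∃ i, ∃ q ∈ C, ∃ j, (p, i) ≠ (q, j) ∧ edg a p i = e ∧ edg a q j = e)
    {p : ZMod n → Z} (hp : p ∈ C) : (TV h C p).card + 1 ≤ (TE a h C p).card := by
  obtain ⟨i1, hi1⟩ := TV_nonempty (h := h) (C := C) p
  obtain ⟨i0, hi0⟩ := TE_ne hr hh hc hC hE h2 hp
  have hex : ∃ i, i ∈ TE a h C p ∧ i - 1 ∉ TE a h C p := by
    by_contra h3
    push Not at h3
    have key : ∀ m : ℕ, i1 - m ∈ TE a h C p := by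
      intro m
      induction m with
      | zero => simpa using (TV_sub hc hC hp hi1).1
      | succ m ih =>
        have e1 : i1 - ((m + 1 : ℕ) : ZMod n) = i1 - m - 1 := by push_cast; ring
        rw [e1]
        exact h3 _ ih
    have h4 := key (i1 - i0).val
    rw [ZMod.natCast_zmod_val] at h4
    apply hi0
    simpa using h4
  obtain ⟨i, hi, hi'⟩ := hex
  apply Finset.card_lt_card
  rw [Finset.ssubset_iff_of_subset (fun j hj => (TV_sub hc hC hp hj).1)]
  exact ⟨i, hi, fun h3 => hi' (TV_sub hc hC hp h3).2⟩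

end

theorem ineq [NeZero n] {Z : Type} [DecidableEq Z] (σ : Fin k → Equiv.Perm Z) (a : ZMod n → Fin k × Bool)
    (hr : CRed a) (h : ZMod n → ℕ) (hh : Function.Injective h) (hc : Compat a h) (E : Finset (Z × Fin k))
    (C : Finset (ZMod n → Z)) (hC : ∀ p ∈ C, IsCell σ a p) (hE : ∀ p ∈ C, ∀ i, edg a p i ∈ E)
    (h2 : ∀ e ∈ E, ∃ p ∈ C, ∃ i, ∃ q ∈ C, ∃ j, (p, i) ≠ (q, j) ∧ edg a p i = e ∧ edg a q j = e) :
    C.card + (verts σ E).card ≤ E.card := by
  have hTE : ∑ p ∈ C, (TE a h C p).card ≤ E.card := by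
    rw [← Finset.card_sigma]
    refine Finset.card_le_card_of_injOn (fun x : (Σ _ : ZMod n → Z, ZMod n) => edg a x.1 x.2) ?_ ?_
    · rintro ⟨p, i⟩ hx
      rw [Finset.mem_coe, Finset.mem_sigma] at hx
      exact hE p hx.1 i
    · rintro ⟨p, i⟩ hx ⟨q, j⟩ hy e
      rw [Finset.mem_coe, Finset.mem_sigma] at hx hy
      simp only at hx hy e
      have h3 := mem_TE.1 hx.2 q hy.1 j e.symm
      have h4 := mem_TE.1 hy.2 p hx.1 i e
      obtain ⟨rfl, rfl⟩ := edg_inj hr hh hC hx.1 hy.1 e (le_antisymm h4 h3)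
      rfl
  have hTV : (verts σ E).card ≤ ∑ p ∈ C, (TV h C p).card := by
    rw [← Finset.card_sigma]
    refine Finset.card_le_card_of_surjOn (fun x : (Σ _ : ZMod n → Z, ZMod n) => x.1 x.2) ?_
    intro y hy
    -- the vertex is visited
    have hvis : ∃ p ∈ C, ∃ i, p i = y := by
      rw [Finset.mem_coe, verts, Finset.mem_union, Finset.mem_image, Finset.mem_image] at hy
      rcases hy with ⟨e, he, rfl⟩ | ⟨e, he, rfl⟩
      · obtain ⟨p, hp, i, q, hq, j, _, e1, _⟩ := h2 e he
        exact ⟨p, hp, sp a i, congrArg Prod.fst e1⟩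
      · obtain ⟨p, hp, i, q, hq, j, _, e1, _⟩ := h2 e he
        refine ⟨p, hp, ep a i, ?_⟩
        rw [cell_ep (hC p hp), ← e1]
        rfl
    obtain ⟨p, hp, i, hi⟩ := hvis
    classical
    obtain ⟨x, hx, hmax⟩ := Finset.exists_max_image
      ((C ×ˢ (Finset.univ : Finset (ZMod n))).filter fun x => x.1 x.2 = y) (fun x => h x.2)
      ⟨(p, i), by rw [Finset.mem_filter, Finset.mem_product]; exact ⟨⟨hp, Finset.mem_univ _⟩, hi⟩⟩
    rw [Finset.mem_filter, Finset.mem_product] at hx
    refine ⟨⟨x.1, x.2⟩, ?_, hx.2⟩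
    rw [Finset.mem_coe, Finset.mem_sigma]
    refine ⟨hx.1.1, mem_TV.2 fun q hq j e => hmax (q, j) ?_⟩
    rw [Finset.mem_filter, Finset.mem_product]
    exact ⟨⟨hq, Finset.mem_univ _⟩, e.trans hx.2⟩
  have hsum : ∑ p ∈ C, ((TV h C p).card + 1) ≤ ∑ p ∈ C, (TE a h C p).card :=
    Finset.sum_le_sum fun p hp => card_TV_lt hr hh hc hC hE h2 hp
  rw [Finset.sum_add_distrib, Finset.sum_const, smul_eq_mul, mul_one] at hsum
  omega

end Pool.Agent.MelL
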