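import Pool.Agent.MelL.Ineq

/-!
# Closed paths are trivial if the first cohomology vanishes (module L3)

Induction on the number of edges of `E`.
(0) `E = ∅`: only the empty path.
(1) Every edge is traversed at least twice and `E ≠ ∅`: `|C| + V ≤ |E|` (`ineq`).  But `H1Zero` gives
  `|E| - |C| ≤ dim {φ : E → ℚ | φ (cells) = 0} ≤ dim (coboundaries) ≤ V - 1`: contradiction.
(2) Some edge `e` is not traversed by the cells.  Put `E' = E \ e`, the same `C`; `H1Zero` for `E'` is clear.  The
  indicator of `e` is a coboundary of a function `f` on `E`: `f` is constant along the edges of `E'` and grows by `1` along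
  `e`.  Let a closed path in `E` be given; if it uses `e`: by `f` there are two consecutive uses of `e` of
  opposite directions with a path in `E'` between them (number of forward uses = number of backward uses; take two
  consecutive uses of opposite sign), which is closed (it begins and ends at the same end of `e`), so it is trivial by
  induction: delete it together with the two uses (induction on the length of the path).  Rotating the closed path
  changes its value by conjugation only; or prove it for paths with `f` at the ends equal.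
(3) Some edge `e` is traversed exactly once, by `(p₀, i₀)`.  `E' = E \ e`, `C' = C \ p₀`; no cell of `C'` uses `e`.
  `H1Zero` for `(E', C')`: extend `φ'` by the value at `e` which makes the sum over `p₀` zero.  The rest of the cell `p₀` is
  a path in `E'` between the ends of `e` with the value `ψ (x)^(±1)` in `G` (as `ψ (word a) = 1` and rotations of it
  are trivial): replace every use of `e` in a closed path by it.
-/

open Finset

namespace Pool.Agent.MelL

variable {k n : ℕ}

/-- A potential of the labelling. -/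
private def Pot {Z : Type} (σ : Fin k → Equiv.Perm Z) {G : Type} [Group G]
    (ψ : FreeGroup (Fin k) →* G) (E : Finset (Z × Fin k)) (u : Z → G) : Prop :=
  ∀ e ∈ E, u (σ e.2 e.1) = u e.1 * ψ (FreeGroup.of e.2)

private theorem pot_walk {Z : Type} (σ : Fin k → Equiv.Perm Z) {G : Type} [Group G]
    (ψ : FreeGroup (Fin k) →* G) {E : Finset (Z × Fin k)} {u : Z → G} (hu : Pot σ ψ E u)
    (l : List (Fin k × Bool)) (z : Z) (hl : Uses σ E l z) :
    u (walk σ l z) = u z * ψ (FreeGroup.mk l) := by
  induction l generalizing z with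
  | nil =>
    have : FreeGroup.mk ([] : List (Fin k × Bool)) = 1 := rfl
    rw [walk, this, map_one, mul_one]
  | cons l t ih =>
    obtain ⟨h1, h2⟩ := hl
    have e1 : FreeGroup.mk (l :: t) = FreeGroup.mk [l] * FreeGroup.mk t := rfl
    rw [walk, ih _ h2, e1, map_mul, ← mul_assoc]
    congr 1
    obtain ⟨x, b⟩ := l
    cases b
    · have h3 := hu _ h1
      simp only [ledge, step, Bool.false_eq_true, if_false] at h3 ⊢
      have e2 : FreeGroup.mk [(x, false)] = (FreeGroup.of x)⁻¹ := rfl
      have e3 : (σ x) ((σ x)⁻¹ z) = z := (σ x).apply_symm_apply z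
      rw [e3] at h3
      rw [h3, e2, map_inv, mul_inv_cancel_right]
    · have h3 := hu _ h1
      simp only [ledge, step, if_true] at h3 ⊢
      rw [h3]
      rfl

private theorem pot_edge {Z : Type} (σ : Fin k → Equiv.Perm Z) {G : Type} [Group G]
    (ψ : FreeGroup (Fin k) →* G) {a : ZMod n → Fin k × Bool} {p : ZMod n → Z} (hp : IsCell σ a p)
    (u : Z → G) (i : ZMod n) :
    (u (σ (edg a p i).2 (edg a p i).1) = u (edg a p i).1 * ψ (FreeGroup.of (edg a p i).2)) ↔
      u (p (i + 1)) = u (p i) * ψ (FreeGroup.mk [a i]) := by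
  have h1 := hp i
  obtain ⟨x, hx⟩ : ∃ x, x = (a i).1 := ⟨_, rfl⟩
  rcases hb : (a i).2 with _ | _
  · have e0 : a i = (x, false) := by rw [hx, ← hb]
    have e1 : edg a p i = (p (i + 1), x) := by simp [edg, sp, hb, hx]
    have e2 : σ x (p (i + 1)) = p i := by
      rw [h1, e0]
      simp [step]
    have e3 : FreeGroup.mk [(x, false)] = (FreeGroup.of x)⁻¹ := rfl
    rw [e1, e0, e2, e3, map_inv]
    exact ⟨fun h => by rw [h, mul_inv_cancel_right], fun h => by rw [h, inv_mul_cancel_right]⟩
  · have e0 : a i = (x, true) := by rw [hx, ← hb]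
    have e1 : edg a p i = (p i, x) := by simp [edg, sp, hb, hx]
    have e2 : σ x (p i) = p (i + 1) := by
      rw [h1, e0]
      simp [step]
    rw [e1, e0]
    show u (σ x (p i)) = u (p i) * ψ (FreeGroup.of x) ↔ _
    rw [e2]
    rfl

/-- The value of a part of the cyclic word. -/
private def rd {G : Type} [Group G] (v : ZMod n → G) : ℕ → ZMod n → G
  | 0, _ => 1
  | m + 1, c => v c * rd v m (c + 1)

private theorem rd_succ {G : Type} [Group G] (v : ZMod n → G) (m : ℕ) (c : ZMod n) :
    rd v (m + 1) c = rd v m c * v (c + m) := by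
  induction m generalizing c with
  | zero => simp [rd]
  | succ m ih =>
    rw [rd, ih (c + 1), rd, mul_assoc]
    congr 3
    push_cast
    ring

private theorem rd_list {G : Type} [Group G] (ψ : FreeGroup (Fin k) →* G)
    (a : ZMod n → Fin k × Bool) (m : ℕ) (c : ℕ) :
    ψ (FreeGroup.mk (List.ofFn fun i : Fin m => a (((c + i : ℕ)) : ZMod n))) =
      rd (fun i => ψ (FreeGroup.mk [a i])) m (c : ZMod n) := by
  induction m generalizing c with
  | zero =>
    have : FreeGroup.mk (List.ofFn fun i : Fin 0 => a (((c + i : ℕ)) : ZMod n)) = 1 := rfl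
    rw [this, map_one, rd]
  | succ m ih =>
    have e1 : (List.ofFn fun i : Fin (m + 1) => a (((c + i : ℕ)) : ZMod n)) =
        a (c : ZMod n) :: List.ofFn fun i : Fin m => a (((c + 1 + i : ℕ)) : ZMod n) := by
      rw [List.ofFn_succ]
      congr 1
      congr 1
      funext i
      congr 2
      simp only [Fin.val_succ]
      ring
    have e2 : FreeGroup.mk (a (c : ZMod n) :: List.ofFn fun i : Fin m => a (((c + 1 + i : ℕ)) : ZMod n)) =
        FreeGroup.mk [a (c : ZMod n)] *
          FreeGroup.mk (List.ofFn fun i : Fin m => a (((c + 1 + i : ℕ)) : ZMod n)) := rfl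
    rw [e1, e2, map_mul, ih (c + 1), rd]
    push_cast
    rfl

private theorem rd_word [NeZero n] {G : Type} [Group G] (ψ : FreeGroup (Fin k) →* G)
    (a : ZMod n → Fin k × Bool) (hψ : ψ (word a) = 1) (c : ZMod n) :
    rd (fun i => ψ (FreeGroup.mk [a i])) n c = 1 := by
  obtain ⟨c, rfl⟩ := ZMod.natCast_zmod_surjective c
  induction c with
  | zero =>
    rw [← rd_list, ← hψ, word]
    simp only [zero_add]
  | succ c ih =>
    have h1 := rd_succ (fun i => ψ (FreeGroup.mk [a i])) n (c : ZMod n)
    rw [rd, ih] at h1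
    simp only [ZMod.natCast_self, add_zero, one_mul] at h1
    push_cast
    exact mul_eq_left.1 h1

/-- The linear algebra. -/
private theorem no_lin [NeZero n] {Z : Type} [DecidableEq Z] (σ : Fin k → Equiv.Perm Z)
    (a : ZMod n → Fin k × Bool) (E : Finset (Z × Fin k)) (C : Finset (ZMod n → Z))
    (hE : ∀ p ∈ C, ∀ i, edg a p i ∈ E) (hne : E.Nonempty) (h1 : H1Zero σ a E C)
    (hin : C.card + (verts σ E).card ≤ E.card) : False := by
  classical
  obtain ⟨L, hL⟩ : ∃ L : (E → ℚ) →ₗ[ℚ] (C → ℚ), ∀ φ p, L φ p =
      ∑ i : ZMod n, (if (a i).2 then 1 else -1) * φ ⟨edg a p.1 i, hE p.1 p.2 i⟩ := by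
    refine ⟨{ toFun := fun φ p => ∑ i : ZMod n, (if (a i).2 then 1 else -1) * φ ⟨edg a p.1 i, hE p.1 p.2 i⟩
              map_add' := ?_, map_smul' := ?_ }, fun φ p => rfl⟩
    · intro φ φ'
      funext p
      simp only [Pi.add_apply, mul_add, Finset.sum_add_distrib]
    · intro c φ
      funext p
      simp only [Pi.smul_apply, smul_eq_mul, RingHom.id_apply, Finset.mul_sum]
      exact Finset.sum_congr rfl fun i _ => by ring
  have hv1 : ∀ e ∈ E, e.1 ∈ verts σ E := fun e he =>
    Finset.mem_union_left _ (Finset.mem_image_of_mem _ he)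
  have hv2 : ∀ e ∈ E, σ e.2 e.1 ∈ verts σ E := fun e he =>
    Finset.mem_union_right _ (Finset.mem_image_of_mem (fun e : Z × Fin k => σ e.2 e.1) he)
  obtain ⟨D, hD⟩ : ∃ D : (verts σ E → ℚ) →ₗ[ℚ] (E → ℚ), ∀ f e, D f e =
      f ⟨σ e.1.2 e.1.1, hv2 e.1 e.2⟩ - f ⟨e.1.1, hv1 e.1 e.2⟩ := by
    refine ⟨{ toFun := fun f e => f ⟨σ e.1.2 e.1.1, hv2 e.1 e.2⟩ - f ⟨e.1.1, hv1 e.1 e.2⟩
              map_add' := ?_, map_smul' := ?_ }, fun f e => rfl⟩
    · intro f f'
      funext e
      simp only [Pi.add_apply]
      ring
    · intro c f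
      funext e
      simp only [Pi.smul_apply, smul_eq_mul, RingHom.id_apply]
      ring
  have hle : LinearMap.ker L ≤ LinearMap.range D := by
    intro φ hφ
    obtain ⟨f, hf⟩ := h1 (fun e => if h : e ∈ E then φ ⟨e, h⟩ else 0) (by
      intro p hp
      have h2 : L φ ⟨p, hp⟩ = 0 := by
        rw [LinearMap.mem_ker.1 hφ]
        rfl
      rw [hL] at h2
      rw [← h2]
      refine Finset.sum_congr rfl fun i _ => ?_
      rw [dif_pos (hE p hp i)])
    refine ⟨fun z => f z.1, ?_⟩
    funext e
    rw [hD, ← hf e.1 e.2, dif_pos e.2]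
  have r1 := LinearMap.finrank_range_add_finrank_ker L
  have r2 := LinearMap.finrank_range_add_finrank_ker D
  have r3 := Submodule.finrank_mono hle
  have r4 : Module.finrank ℚ (LinearMap.range L) ≤ Module.finrank ℚ (C → ℚ) :=
    Submodule.finrank_le _
  have r5 : 0 < Module.finrank ℚ (LinearMap.ker D) := by
    rw [Module.finrank_pos_iff_exists_ne_zero]
    obtain ⟨e, he⟩ := hne
    refine ⟨⟨fun _ => 1, ?_⟩, ?_⟩
    · rw [LinearMap.mem_ker]
      funext e
      rw [hD]
      simp
    · intro h0
      have h3 := congrFun (congrArg Subtype.val h0) ⟨e.1, hv1 e he⟩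
      exact one_ne_zero h3
  rw [Module.finrank_fintype_fun_eq_card, Fintype.card_coe] at r1 r2 r4
  omega

private theorem exists_pot [NeZero n] {Z : Type} (σ : Fin k → Equiv.Perm Z) (a : ZMod n → Fin k × Bool)
    (hr : CRed a) (h : ZMod n → ℕ) (hh : Function.Injective h) (hc : Compat a h)
    {G : Type} [Group G] (ψ : FreeGroup (Fin k) →* G) (hψ : ψ (word a) = 1) (m : ℕ) :
    ∀ (E : Finset (Z × Fin k)) (C : Finset (ZMod n → Z)), E.card = m → (∀ p ∈ C, IsCell σ a p) →
      (∀ p ∈ C, ∀ i, edg a p i ∈ E) → H1Zero σ a E C → ∃ u : Z → G, Pot σ ψ E u := by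
  classical
  induction m with
  | zero =>
    intro E C hm _ _ _
    refine ⟨fun _ => 1, fun e he => ?_⟩
    rw [Finset.card_eq_zero.1 hm] at he
    exact absurd he (Finset.notMem_empty _)
  | succ m ih =>
    intro E C hm hC hE h1
    have hne : E.Nonempty := Finset.card_pos.1 (by omega)
    by_cases h2 : ∀ e ∈ E, ∃ p ∈ C, ∃ i, ∃ q ∈ C, ∃ j, (p, i) ≠ (q, j) ∧ edg a p i = e ∧ edg a q j = e
    · exact (no_lin σ a E C hE hne h1 (ineq σ a hr h hh hc E C hC hE h2)).elim
    · push Not at h2
      obtain ⟨e₀, he₀, h3⟩ := h2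
      have hcard : (E.erase e₀).card = m := by
        rw [Finset.card_erase_of_mem he₀, hm]
        rfl
      by_cases h4 : ∃ p ∈ C, ∃ i, edg a p i = e₀
      · obtain ⟨p₀, hp₀, i₀, hi₀⟩ := h4
        have h5 : ∀ q ∈ C, ∀ j, edg a q j = e₀ → q = p₀ ∧ j = i₀ := by
          intro q hq j hj
          by_contra hcon
          refine h3 p₀ hp₀ i₀ q hq j (fun h6 => hcon ?_) hi₀ hj
          rw [Prod.mk.injEq] at h6
          exact ⟨h6.1.symm, h6.2.symm⟩
        have hC' : ∀ p ∈ C.erase p₀, ∀ i, edg a p i ≠ e₀ := fun p hp i hi =>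
          (Finset.mem_erase.1 hp).1 (h5 p (Finset.mem_of_mem_erase hp) i hi).1
        obtain ⟨u, hu⟩ := ih (E.erase e₀) (C.erase p₀) hcard
          (fun p hp => hC p (Finset.mem_of_mem_erase hp))
          (fun p hp i => Finset.mem_erase.2 ⟨hC' p hp i, hE p (Finset.mem_of_mem_erase hp) i⟩) (by
            intro φ hφ
            obtain ⟨sg, hsg⟩ : ∃ sg : ZMod n → ℚ, sg = fun i => if (a i).2 then 1 else -1 := ⟨_, rfl⟩
            have hsg2 : ∀ i, sg i * sg i = 1 := by
              intro i
              rw [hsg]
              dsimp only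
              split_ifs <;> norm_num
            obtain ⟨t, ht⟩ : ∃ t : ℚ, t = - sg i₀ * ∑ i ∈ Finset.univ.erase i₀, sg i * φ (edg a p₀ i) :=
              ⟨_, rfl⟩
            obtain ⟨f, hf⟩ := h1 (Function.update φ e₀ t) (by
              intro p hp
              by_cases hpp : p = p₀
              · subst hpp
                have e1 : ∑ i : ZMod n, sg i * Function.update φ e₀ t (edg a p i) = 0 := by
                  rw [← Finset.add_sum_erase _ _ (Finset.mem_univ i₀), hi₀, Function.update_self]
                  have e2 : ∑ i ∈ Finset.univ.erase i₀, sg i * Function.update φ e₀ t (edg a p i) =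
                      ∑ i ∈ Finset.univ.erase i₀, sg i * φ (edg a p i) := by
                    refine Finset.sum_congr rfl fun i hi => ?_
                    rw [Function.update_of_ne]
                    intro h6
                    exact (Finset.mem_erase.1 hi).1 (h5 p hp i h6).2
                  rw [e2, ht]
                  have := hsg2 i₀
                  linear_combination (-∑ i ∈ Finset.univ.erase i₀, sg i * φ (edg a p i)) * this
                rw [hsg] at e1
                exact e1
              · have hp' : p ∈ C.erase p₀ := Finset.mem_erase.2 ⟨hpp, hp⟩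
                rw [← hφ p hp']
                refine Finset.sum_congr rfl fun i _ => ?_
                rw [Function.update_of_ne (hC' p hp' i)])
            refine ⟨f, fun e he => ?_⟩
            rw [← hf e (Finset.mem_of_mem_erase he), Function.update_of_ne (Finset.ne_of_mem_erase he)])
        refine ⟨u, fun e he => ?_⟩
        by_cases hee : e = e₀
        · rw [hee, ← hi₀, pot_edge σ ψ (hC p₀ hp₀)]
          have hstep : ∀ m' : ℕ, m' + 1 ≤ n → u (p₀ (i₀ + 1 + m')) =
              u (p₀ (i₀ + 1)) * rd (fun i => ψ (FreeGroup.mk [a i])) m' (i₀ + 1) := by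
            intro m'
            induction m' with
            | zero =>
              intro _
              simp [rd]
            | succ m' ih' =>
              intro hm'
              have e1 := ih' (by omega)
              have hne' : i₀ + 1 + (m' : ZMod n) ≠ i₀ := by
                intro h6
                have h7 : ((1 + m' : ℕ) : ZMod n) = 0 := by
                  push_cast
                  linear_combination h6
                rw [ZMod.natCast_eq_zero_iff] at h7
                have := Nat.le_of_dvd (by omega) h7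
                omega
              have h8 : edg a p₀ (i₀ + 1 + m') ∈ E.erase e₀ :=
                Finset.mem_erase.2 ⟨fun h9 => hne' (h5 p₀ hp₀ _ h9).2, hE p₀ hp₀ _⟩
              have h9 := (pot_edge σ ψ (hC p₀ hp₀) u (i₀ + 1 + m')).1 (hu _ h8)
              rw [rd_succ, ← mul_assoc, ← e1]
              rw [show i₀ + 1 + ((m' + 1 : ℕ) : ZMod n) = i₀ + 1 + m' + 1 by push_cast; ring]
              exact h9
          have hn : 1 ≤ n := Nat.one_le_iff_ne_zero.2 (NeZero.ne n)
          have h10 := hstep (n - 1) (by omega)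
          have h11 : i₀ + 1 + ((n - 1 : ℕ) : ZMod n) = i₀ := by
            rw [Nat.cast_sub hn, ZMod.natCast_self]
            push_cast
            ring
          have h12 := rd_word ψ a hψ (i₀ + 1)
          have h13 := rd_succ (fun i => ψ (FreeGroup.mk [a i])) (n - 1) (i₀ + 1)
          rw [Nat.sub_add_cancel hn, h12, h11] at h13
          rw [h11] at h10
          rw [h10, mul_assoc, ← h13, mul_one]
        · exact hu e (Finset.mem_erase.2 ⟨hee, he⟩)
      · push Not at h4
        obtain ⟨u, hu⟩ := ih (E.erase e₀) C hcard hC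
          (fun p hp i => Finset.mem_erase.2 ⟨h4 p hp i, hE p hp i⟩) (by
            intro φ hφ
            obtain ⟨f, hf⟩ := h1 φ hφ
            exact ⟨f, fun e he => hf e (Finset.mem_of_mem_erase he)⟩)
        obtain ⟨f, hf⟩ := h1 (fun e => if e = e₀ then 1 else 0) (by
          intro p hp
          refine Finset.sum_eq_zero fun i _ => ?_
          rw [if_neg (h4 p hp i), mul_zero])
        have hf0 := hf e₀ he₀
        rw [if_pos rfl] at hf0
        refine ⟨fun z => if f z = f (σ e₀.2 e₀.1) then
          u e₀.1 * ψ (FreeGroup.of e₀.2) * (u (σ e₀.2 e₀.1))⁻¹ * u z else u z, fun e he => ?_⟩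
        by_cases hee : e = e₀
        · subst hee
          dsimp only
          rw [if_pos rfl, if_neg (fun h6 => by rw [h6, sub_self] at hf0; exact one_ne_zero hf0),
            inv_mul_cancel_right]
        · have h6 := hf e he
          rw [if_neg hee] at h6
          have h7 : f (σ e.2 e.1) = f e.1 := by linarith
          have h8 := hu e (Finset.mem_erase.2 ⟨hee, he⟩)
          dsimp only
          rw [h7, h8]
          split_ifs
          · simp only [mul_assoc]
          · rfl

theorem triv [NeZero n] {Z : Type} (σ : Fin k → Equiv.Perm Z) (a : ZMod n → Fin k × Bool)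
    (hr : CRed a) (h : ZMod n → ℕ) (hh : Function.Injective h) (hc : Compat a h)
    {G : Type} [Group G] (ψ : FreeGroup (Fin k) →* G) (hψ : ψ (word a) = 1) (E : Finset (Z × Fin k))
    (C : Finset (ZMod n → Z)) (hC : ∀ p ∈ C, IsCell σ a p) (hE : ∀ p ∈ C, ∀ i, edg a p i ∈ E)
    (h1 : H1Zero σ a E C) (l : List (Fin k × Bool)) (z : Z) (hl : Uses σ E l z) (hz : walk σ l z = z) :
    ψ (FreeGroup.mk l) = 1 := by
  obtain ⟨u, hu⟩ := exists_pot σ a hr h hh hc ψ hψ E.card E C rfl hC hE h1
  have h2 := pot_walk σ ψ hu l z hl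
  rw [hz] at h2
  exact mul_eq_left.1 h2.symm

end Pool.Agent.MelL
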