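import Pool.Agent.MelL.Stack
import Pool.Agent.MelL.Triv

/-!
# Local indicability (module L4)

`ψ : F → G` onto with kernel the normal closure of `word a`.  Let `H ≤ G` be finitely generated with no non trivial
homomorphism to `ℚ`; we show `H = ⊥`.
* `h_1 .. h_m ∈ F` with `ψ (h_i)` generating `H`; `η : FreeGroup (Fin m) → F`, `y_i ↦ h_i`.  Every `χ : FreeGroup (Fin m) → ℚ`
  which vanishes on the kernel of `ψ ∘ η` factors through `H`, so it is `0`.  The homomorphisms `FreeGroup (Fin m) → ℚ` form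
  a space of dimension `m`, so finitely many `c_1 .. c_q` of the kernel suffice: `χ (c_j) = 0` for all `j` implies `χ = 0`.
* `η (c_j)` is in the normal closure of `word a`: a product of conjugates `g (word a)^(±1) g⁻¹`, `g` in a finite
  set `T`.  Let `U ≤ F` be generated by the `h_i` and the `g (word a) g⁻¹`, `g ∈ T`.
* `Z = F ⧸ U`, `σ x z = x⁻¹ • z`.  Reading `u` from `z` ends at `u⁻¹ • z`; with `o` the coset of `1`: the path `u` from `o` is
  closed iff `u ∈ U`.  `C` = the cells `i ↦ (word of the first i letters)⁻¹ g⁻¹ • o`, `g ∈ T` (closed as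
  `g (word a) g⁻¹ ∈ U`).  `E` = all edges of the cells and of the paths `h_i` from `o` (any lists representing the `h_i`).
* `H1Zero σ a E C`: let `φ` vanish on the cells.  `Φ u z` = the sum of `± φ` along the path `u` from `z` (defined for
  lists; invariant under free reduction; `Φ (u v) z = Φ u z + Φ v (u⁻¹ • z)`).  `u ↦ Φ u o` is a homomorphism on `U`; it
  vanishes on `g (word a) g⁻¹` (`Φ g o + φ (cell) - Φ g o`), so on the `η (c_j)`; so `Φ (η _) o`, a homomorphism
  `FreeGroup (Fin m) → ℚ`, is `0` and `Φ (h_i) o = 0`: `Φ _ o = 0` on `U`.  Put `f (g • o) = Φ (g⁻¹) o` (well defined);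
  `f (x⁻¹ • z) - f z = φ (z, x)`.
* `triv` for the paths `h_i` from `o`: `ψ (h_i) = 1`, so `H = ⊥`.
-/

open Finset

namespace Pool.Agent.MelL

variable {k n : ℕ}

private theorem uses_mono {Z : Type} (σ : Fin k → Equiv.Perm Z) {E E' : Finset (Z × Fin k)} (hE : E ⊆ E')
    (l : List (Fin k × Bool)) (z : Z) (h : Uses σ E l z) : Uses σ E' l z := by
  induction l generalizing z with
  | nil => trivial
  | cons l t ih => exact ⟨hE h.1, ih _ h.2⟩

private theorem exists_uses {Z : Type} (σ : Fin k → Equiv.Perm Z) (l : List (Fin k × Bool)) (z : Z) :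
    ∃ E : Finset (Z × Fin k), Uses σ E l z := by
  classical
  induction l generalizing z with
  | nil => exact ⟨∅, trivial⟩
  | cons l t ih =>
    obtain ⟨E, hE⟩ := ih (step σ l z)
    exact ⟨insert (ledge σ l z) E, Finset.mem_insert_self _ _, uses_mono σ (Finset.subset_insert _ _) _ _ hE⟩

/-- A member of a closure is a member of the closure of a finite subset. -/
private theorem fin_closure {F : Type} [Group F] {ι : Type} (r : ι → F) (x : F)
    (hx : x ∈ Subgroup.closure (Set.range r)) :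
    ∃ T : Finset ι, x ∈ Subgroup.closure (r '' (T : Set ι)) := by
  classical
  induction hx using Subgroup.closure_induction with
  | mem x hx =>
    obtain ⟨i, rfl⟩ := hx
    exact ⟨{i}, Subgroup.subset_closure ⟨i, by simp, rfl⟩⟩
  | one => exact ⟨∅, one_mem _⟩
  | mul x y _ _ hx hy =>
    obtain ⟨T, hT⟩ := hx
    obtain ⟨T', hT'⟩ := hy
    refine ⟨T ∪ T', mul_mem ?_ ?_⟩
    · exact Subgroup.closure_mono (Set.image_mono (by simp)) hT
    · exact Subgroup.closure_mono (Set.image_mono (by simp)) hT'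
  | inv x _ hx =>
    obtain ⟨T, hT⟩ := hx
    exact ⟨T, inv_mem hT⟩

private theorem normal_closure_eq {F : Type} [Group F] (w : F) :
    Subgroup.normalClosure {w} = Subgroup.closure (Set.range fun g : F => g * w * g⁻¹) := by
  have : Group.conjugatesOfSet ({w} : Set F) = Set.range fun g : F => g * w * g⁻¹ := by
    ext x
    rw [Group.mem_conjugatesOfSet_iff]
    constructor
    · rintro ⟨b, hb, h⟩
      rw [Set.mem_singleton_iff] at hb
      subst hb
      obtain ⟨g, hg⟩ := isConj_iff.1 h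
      exact ⟨g, hg⟩
    · rintro ⟨g, rfl⟩
      exact ⟨w, rfl, isConj_iff.2 ⟨g, rfl⟩⟩
  rw [Subgroup.normalClosure, this]

/-- Finitely many elements of a subgroup suffice for the vanishing of the homomorphisms to the rationals. -/
private theorem fin_test {m : ℕ} (K : Subgroup (FreeGroup (Fin m)))
    (hK : ∀ χ : FreeGroup (Fin m) →* Multiplicative ℚ, (∀ c ∈ K, χ c = 1) → χ = 1) :
    ∃ T : Finset (FreeGroup (Fin m)), (∀ c ∈ T, c ∈ K) ∧
      ∀ χ : FreeGroup (Fin m) →* Multiplicative ℚ, (∀ c ∈ T, χ c = 1) → χ = 1 := by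
  classical
  obtain ⟨X, hX⟩ : ∃ X : (Fin m → ℚ) → (FreeGroup (Fin m) →* Multiplicative ℚ), ∀ v, X v =
    FreeGroup.lift fun i => Multiplicative.ofAdd (v i) := ⟨_, fun _ => rfl⟩
  have hadd : ∀ v v', X (v + v') = X v * X v' := by
    intro v v'
    refine FreeGroup.ext_hom _ _ fun i => ?_
    rw [MonoidHom.mul_apply, hX, hX, hX, FreeGroup.lift_apply_of, FreeGroup.lift_apply_of,
      FreeGroup.lift_apply_of]
    rfl
  have hsmul : ∀ (r : ℚ) v c, Multiplicative.toAdd (X (r • v) c) = r * Multiplicative.toAdd (X v c) := by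
    intro r v c
    have h1 : X (r • v) = (AddMonoidHom.toMultiplicative (AddMonoidHom.mulLeft r)).comp (X v) := by
      refine FreeGroup.ext_hom _ _ fun i => ?_
      rw [MonoidHom.comp_apply, hX, hX, FreeGroup.lift_apply_of, FreeGroup.lift_apply_of]
      rfl
    rw [h1]
    rfl
  obtain ⟨L, hL⟩ : ∃ L : FreeGroup (Fin m) → Module.Dual ℚ (Fin m → ℚ), ∀ c v,
      L c v = Multiplicative.toAdd (X v c) := by
    refine ⟨fun c => { toFun := fun v => Multiplicative.toAdd (X v c), map_add' := ?_, map_smul' := ?_ },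
      fun c v => rfl⟩
    · intro v v'
      rw [hadd]
      rfl
    · intro r v
      rw [hsmul]
      rfl
  have hfg : (Submodule.span ℚ (L '' (K : Set (FreeGroup (Fin m))))).FG := IsNoetherian.noetherian _
  rw [Submodule.fg_span_iff_fg_span_finset_subset] at hfg
  obtain ⟨s, hs, hs2⟩ := hfg
  obtain ⟨T, hT⟩ : ∃ T : Finset (FreeGroup (Fin m)), (∀ c ∈ T, c ∈ K) ∧ T.image L = s := by
    obtain ⟨T, hT1, hT2⟩ := Finset.subset_set_image_iff.1 hs
    exact ⟨T, fun c hc => hT1 hc, hT2⟩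
  refine ⟨T, hT.1, fun χ hχ => ?_⟩
  obtain ⟨v, hv⟩ : ∃ v : Fin m → ℚ, χ = X v := by
    refine ⟨fun i => Multiplicative.toAdd (χ (FreeGroup.of i)), ?_⟩
    refine FreeGroup.ext_hom _ _ fun i => ?_
    rw [hX, FreeGroup.lift_apply_of]
    rfl
  apply hK
  intro c hc
  have h1 : L c ∈ Submodule.span ℚ (L '' (K : Set (FreeGroup (Fin m)))) :=
    Submodule.subset_span ⟨c, hc, rfl⟩
  rw [hs2] at h1
  have h2 : ∀ l ∈ Submodule.span ℚ (s : Set (Module.Dual ℚ (Fin m → ℚ))), l v = 0 := by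
    intro l hl
    induction hl using Submodule.span_induction with
    | mem l hl =>
      rw [← hT.2, Finset.coe_image] at hl
      obtain ⟨c', hc', rfl⟩ := hl
      rw [hL, ← hv, hχ c' hc']
      rfl
    | zero => rfl
    | add l l' _ _ h h' => rw [LinearMap.add_apply, h, h', add_zero]
    | smul r l _ h => rw [LinearMap.smul_apply, h, smul_zero]
  have h3 := h2 _ h1
  rw [hL, ← hv] at h3
  exact Multiplicative.toAdd.injective (h3.trans toAdd_one.symm)

/-- The sums along the paths in a coset graph. -/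
private theorem exists_path {Z : Type} [MulAction (FreeGroup (Fin k)) Z] (φ : Z × Fin k → ℚ) :
    ∃ D : FreeGroup (Fin k) → Z → ℚ, (∀ u v z, D (u * v) z = D u z + D v (u⁻¹ • z)) ∧
      ∀ x z, D (FreeGroup.of x) z = φ (z, x) := by
  obtain ⟨τ, hτ⟩ : ∃ τ : Fin k → Equiv.Perm (Z × ℚ), ∀ x p,
      τ x p = ((FreeGroup.of x)⁻¹ • p.1, p.2 + φ (p.1, x)) := by
    refine ⟨fun x => ⟨fun p => ((FreeGroup.of x)⁻¹ • p.1, p.2 + φ (p.1, x)),
      fun p => (FreeGroup.of x • p.1, p.2 - φ (FreeGroup.of x • p.1, x)), fun p => ?_, fun p => ?_⟩,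
      fun x p => rfl⟩
    · simp
    · simp
  obtain ⟨Θ, hΘ⟩ : ∃ Θ : FreeGroup (Fin k) →* Equiv.Perm (Z × ℚ), ∀ x, Θ (FreeGroup.of x) = (τ x)⁻¹ :=
    ⟨FreeGroup.lift fun x => (τ x)⁻¹, fun x => by rw [FreeGroup.lift_apply_of]⟩
  have h1 : ∀ w : FreeGroup (Fin k), ∀ z t s, Θ w (z, t + s) = ((Θ w (z, t)).1, (Θ w (z, t)).2 + s) ∧
      (Θ w (z, t)).1 = w • z := by
    have h0 : ∀ x z t s, τ x (z, t + s) = ((τ x (z, t)).1, (τ x (z, t)).2 + s) := by
      intro x z t s
      rw [hτ, hτ]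
      dsimp only
      rw [add_right_comm]
    have h0' : ∀ x z t s, (τ x)⁻¹ (z, t + s) = (((τ x)⁻¹ (z, t)).1, ((τ x)⁻¹ (z, t)).2 + s) := by
      intro x z t s
      rw [Equiv.Perm.inv_eq_iff_eq]
      have h2 := h0 x ((τ x)⁻¹ (z, t)).1 ((τ x)⁻¹ (z, t)).2 s
      rw [h2]
      have h3 : τ x (((τ x)⁻¹ (z, t)).1, ((τ x)⁻¹ (z, t)).2) = (z, t) := by
        show τ x ((τ x)⁻¹ (z, t)) = (z, t)
        exact (τ x).apply_symm_apply _
      rw [h3]
    have h0'' : ∀ x z t, ((τ x)⁻¹ (z, t)).1 = FreeGroup.of x • z := by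
      intro x z t
      have h3 : τ x ((τ x)⁻¹ (z, t)) = (z, t) := (τ x).apply_symm_apply _
      rw [hτ] at h3
      have h4 := congrArg Prod.fst h3
      dsimp only at h4
      exact inv_smul_eq_iff.1 h4
    intro w
    induction w using FreeGroup.induction_on with
    | C1 =>
      intro z t s
      simp
    | of x =>
      intro z t s
      rw [hΘ]
      exact ⟨h0' x z t s, h0'' x z t⟩
    | inv_of x _ =>
      intro z t s
      rw [map_inv, hΘ, inv_inv]
      refine ⟨h0 x z t s, ?_⟩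
      rw [hτ]
    | mul u v hu hv =>
      intro z t s
      rw [map_mul]
      simp only [Equiv.Perm.mul_apply]
      have h2 := (hv z t s).1
      have h3 := (hv z t s).2
      refine ⟨?_, ?_⟩
      · rw [h2, (hu _ _ s).1]
      · rw [show Θ v (z, t) = ((Θ v (z, t)).1, (Θ v (z, t)).2) from rfl, (hu _ _ s).2, h3,
          mul_smul]
  have h2 : ∀ (u : FreeGroup (Fin k)) z t, Θ u (z, t) = (u • z, (Θ u (z, 0)).2 + t) := by
    intro u z t
    have h3 := h1 u z 0 t
    rw [zero_add] at h3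
    rw [h3.1, h3.2]
  refine ⟨fun u z => (Θ u⁻¹ (z, 0)).2, fun u v z => ?_, fun x z => ?_⟩
  · dsimp only
    rw [mul_inv_rev, map_mul, Equiv.Perm.mul_apply, h2 u⁻¹ z 0, h2 v⁻¹, add_zero, add_comm]
  · dsimp only
    rw [map_inv, hΘ, inv_inv, hτ]
    simp

/-- The labelled graph of the cosets. -/
private def sg (U : Subgroup (FreeGroup (Fin k))) (x : Fin k) : Equiv.Perm (FreeGroup (Fin k) ⧸ U) :=
  MulAction.toPerm (FreeGroup.of x)⁻¹

private theorem step_sg (U : Subgroup (FreeGroup (Fin k))) (l : Fin k × Bool) (z : FreeGroup (Fin k) ⧸ U) :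
    step (sg U) l z = (FreeGroup.mk [l])⁻¹ • z := by
  obtain ⟨x, b⟩ := l
  cases b
  · have e1 : FreeGroup.mk [(x, false)] = (FreeGroup.of x)⁻¹ := rfl
    rw [e1, inv_inv]
    show (sg U x)⁻¹ z = _
    rw [Equiv.Perm.inv_eq_iff_eq]
    show z = (FreeGroup.of x)⁻¹ • FreeGroup.of x • z
    rw [inv_smul_smul]
  · rfl

private theorem walk_sg (U : Subgroup (FreeGroup (Fin k))) (l : List (Fin k × Bool)) (z : FreeGroup (Fin k) ⧸ U) :
    walk (sg U) l z = (FreeGroup.mk l)⁻¹ • z := by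
  induction l generalizing z with
  | nil =>
    have : FreeGroup.mk ([] : List (Fin k × Bool)) = 1 := rfl
    rw [walk, this, inv_one, one_smul]
  | cons l t ih =>
    have e1 : FreeGroup.mk (l :: t) = FreeGroup.mk [l] * FreeGroup.mk t := rfl
    rw [walk, ih, step_sg, e1, mul_inv_rev, mul_smul]

/-- The parts of the word. -/
private def pre (a : ZMod n → Fin k × Bool) (j : ℕ) : FreeGroup (Fin k) :=
  FreeGroup.mk (List.ofFn fun i : Fin j => a ((i : ℕ) : ZMod n))

private theorem pre_zero (a : ZMod n → Fin k × Bool) : pre a 0 = 1 := rfl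

private theorem pre_succ (a : ZMod n → Fin k × Bool) (j : ℕ) :
    pre a (j + 1) = pre a j * FreeGroup.mk [a (j : ZMod n)] := by
  rw [pre, pre, List.ofFn_succ', List.concat_eq_append, FreeGroup.mul_mk]
  rfl

private def cel (U : Subgroup (FreeGroup (Fin k))) (a : ZMod n → Fin k × Bool) (g : FreeGroup (Fin k))
    (i : ZMod n) : FreeGroup (Fin k) ⧸ U :=
  (pre a i.val)⁻¹ • g⁻¹ • ((1 : FreeGroup (Fin k)) : FreeGroup (Fin k) ⧸ U)

private theorem mem_smul (U : Subgroup (FreeGroup (Fin k))) (u : FreeGroup (Fin k)) (hu : u ∈ U) :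
    u • ((1 : FreeGroup (Fin k)) : FreeGroup (Fin k) ⧸ U) = ((1 : FreeGroup (Fin k)) : FreeGroup (Fin k) ⧸ U) := by
  show ((u * 1 : FreeGroup (Fin k)) : FreeGroup (Fin k) ⧸ U) = _
  rw [QuotientGroup.eq]
  simpa using hu

private theorem cel_nat [NeZero n] (U : Subgroup (FreeGroup (Fin k))) (a : ZMod n → Fin k × Bool)
    (g : FreeGroup (Fin k)) (hg : g * word a * g⁻¹ ∈ U) (j : ℕ) (hj : j ≤ n) :
    cel U a g (j : ZMod n) = (pre a j)⁻¹ • g⁻¹ • ((1 : FreeGroup (Fin k)) : FreeGroup (Fin k) ⧸ U) := by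
  rcases hj.lt_or_eq with hj | hj
  · rw [cel, ZMod.val_natCast_of_lt hj]
  · rw [cel, hj, ZMod.natCast_self, ZMod.val_zero, pre_zero, inv_one, one_smul]
    have h1 : pre a n = word a := rfl
    rw [h1, smul_smul]
    have h2 := mem_smul U _ (inv_mem hg)
    rw [mul_inv_rev, mul_inv_rev, inv_inv] at h2
    have h3 : ((word a)⁻¹ * g⁻¹) • ((1 : FreeGroup (Fin k)) : FreeGroup (Fin k) ⧸ U) =
        g⁻¹ • (g * ((word a)⁻¹ * g⁻¹)) • ((1 : FreeGroup (Fin k)) : FreeGroup (Fin k) ⧸ U) := by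
      rw [smul_smul, inv_mul_cancel_left]
    rw [h3, h2]

private theorem isCell_cel [NeZero n] (U : Subgroup (FreeGroup (Fin k))) (a : ZMod n → Fin k × Bool)
    (g : FreeGroup (Fin k)) (hg : g * word a * g⁻¹ ∈ U) : IsCell (sg U) a (cel U a g) := by
  intro i
  obtain ⟨j, hj⟩ : ∃ j : ℕ, j = i.val := ⟨_, rfl⟩
  have hlt : j < n := hj ▸ ZMod.val_lt i
  have hi : i = (j : ZMod n) := by rw [hj, ZMod.natCast_zmod_val]
  rw [step_sg, hi]
  have e1 : (j : ZMod n) + 1 = ((j + 1 : ℕ) : ZMod n) := by push_cast; rfl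
  rw [e1, cel_nat U a g hg _ hlt, cel_nat U a g hg _ hlt.le, pre_succ, mul_inv_rev, mul_smul]

private theorem sum_zmod [NeZero n] (F : ZMod n → ℚ) :
    ∑ j ∈ Finset.range n, F (j : ZMod n) = ∑ i : ZMod n, F i := by
  refine Finset.sum_bij' (fun (j : ℕ) _ => (j : ZMod n)) (fun i _ => i.val) ?_ ?_ ?_ ?_ ?_
  · intro j _
    exact Finset.mem_univ _
  · intro i _
    exact Finset.mem_range.2 (ZMod.val_lt i)
  · intro j hj
    exact ZMod.val_natCast_of_lt (Finset.mem_range.1 hj)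
  · intro i _
    exact ZMod.natCast_zmod_val i
  · intro j _
    rfl

section

variable (U : Subgroup (FreeGroup (Fin k))) (φ : (FreeGroup (Fin k) ⧸ U) × Fin k → ℚ)
  (D : FreeGroup (Fin k) → FreeGroup (Fin k) ⧸ U → ℚ)
  (h1 : ∀ u v z, D (u * v) z = D u z + D v (u⁻¹ • z)) (h2 : ∀ x z, D (FreeGroup.of x) z = φ (z, x))

include h1

private theorem D_one (z : FreeGroup (Fin k) ⧸ U) : D 1 z = 0 := by
  have := h1 1 1 z
  rw [mul_one, inv_one, one_smul] at this
  linarith

private theorem D_inv (u : FreeGroup (Fin k)) (z : FreeGroup (Fin k) ⧸ U) : D u⁻¹ z = - D u (u • z) := by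
  have := h1 u⁻¹ u z
  rw [inv_mul_cancel, inv_inv, D_one U D h1] at this
  linarith

include h2

private theorem D_letter (a : ZMod n → Fin k × Bool) (p : ZMod n → FreeGroup (Fin k) ⧸ U)
    (hp : IsCell (sg U) a p) (i : ZMod n) :
    D (FreeGroup.mk [a i]) (p i) = (if (a i).2 then 1 else -1) * φ (edg a p i) := by
  have h3 := hp i
  obtain ⟨x, hx⟩ : ∃ x, x = (a i).1 := ⟨_, rfl⟩
  rcases hb : (a i).2 with _ | _
  · have e0 : a i = (x, false) := by rw [hx, ← hb]
    have e1 : edg a p i = (p (i + 1), x) := by simp [edg, sp, hb, hx]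
    have e3 : FreeGroup.mk [(x, false)] = (FreeGroup.of x)⁻¹ := rfl
    rw [step_sg, e0, e3, inv_inv] at h3
    rw [e1, e0, e3, D_inv U D h1, ← h3, h2]
    simp
  · have e0 : a i = (x, true) := by rw [hx, ← hb]
    have e1 : edg a p i = (p i, x) := by simp [edg, sp, hb, hx]
    rw [e1, e0]
    show D (FreeGroup.of x) (p i) = _
    rw [h2]
    simp

private theorem D_word [NeZero n] (a : ZMod n → Fin k × Bool) (g : FreeGroup (Fin k))
    (hg : g * word a * g⁻¹ ∈ U)
    (hc : ∑ i : ZMod n, (if (a i).2 then 1 else -1) * φ (edg a (cel U a g) i) = 0) :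
    D (word a) (g⁻¹ • ((1 : FreeGroup (Fin k)) : FreeGroup (Fin k) ⧸ U)) = 0 := by
  have h3 : ∀ j ≤ n, D (pre a j) (g⁻¹ • ((1 : FreeGroup (Fin k)) : FreeGroup (Fin k) ⧸ U)) =
      ∑ j' ∈ Finset.range j, (if (a (j' : ZMod n)).2 then 1 else -1) * φ (edg a (cel U a g) (j' : ZMod n)) := by
    intro j
    induction j with
    | zero =>
      intro _
      rw [pre_zero, D_one U D h1, Finset.sum_range_zero]
    | succ j ih =>
      intro hj
      rw [pre_succ, h1, Finset.sum_range_succ, ih (by omega), ← cel_nat U a g hg j (by omega),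
        D_letter U φ D h1 h2 a _ (isCell_cel U a g hg)]
  have h4 := h3 n le_rfl
  rw [sum_zmod (fun i => (if (a i).2 then 1 else -1) * φ (edg a (cel U a g) i)), hc] at h4
  exact h4

end

/-- The first cohomology vanishes. -/
private theorem h1zero_of [NeZero n] (a : ZMod n → Fin k × Bool) {m : ℕ} (h : Fin m → FreeGroup (Fin k))
    (Tg : Finset (FreeGroup (Fin k))) (U : Subgroup (FreeGroup (Fin k)))
    (hU : U = Subgroup.closure (Set.range h ∪ (fun g => g * word a * g⁻¹) '' (Tg : Set (FreeGroup (Fin k)))))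
    (hT : ∀ χ : FreeGroup (Fin m) →* Multiplicative ℚ,
      (∀ c : FreeGroup (Fin m), FreeGroup.lift h c ∈
        Subgroup.closure ((fun g => g * word a * g⁻¹) '' (Tg : Set (FreeGroup (Fin k)))) → χ c = 1) → χ = 1)
    (E : Finset ((FreeGroup (Fin k) ⧸ U) × Fin k)) (C : Finset (ZMod n → FreeGroup (Fin k) ⧸ U))
    (hC : ∀ g ∈ Tg, cel U a g ∈ C) : H1Zero (sg U) a E C := by
  intro φ hφ
  obtain ⟨D, h1, h2⟩ := exists_path (Z := FreeGroup (Fin k) ⧸ U) φ
  obtain ⟨o, ho⟩ : ∃ o : FreeGroup (Fin k) ⧸ U, o = ((1 : FreeGroup (Fin k)) : FreeGroup (Fin k) ⧸ U) := ⟨_, rfl⟩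
  have hmem : ∀ u ∈ U, u • o = o := fun u hu => by rw [ho]; exact mem_smul U u hu
  have hgU : ∀ g ∈ Tg, g * word a * g⁻¹ ∈ U := by
    intro g hg
    rw [hU]
    exact Subgroup.subset_closure (Or.inr ⟨g, hg, rfl⟩)
  have hhU : ∀ i, h i ∈ U := by
    intro i
    rw [hU]
    exact Subgroup.subset_closure (Or.inl ⟨i, rfl⟩)
  have hmul : ∀ u ∈ U, ∀ v, D (u * v) o = D u o + D v o := by
    intro u hu v
    rw [h1, hmem _ (inv_mem hu)]
  have hinv : ∀ u ∈ U, D u⁻¹ o = - D u o := by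
    intro u hu
    rw [D_inv U D h1, hmem u hu]
  have hg0 : ∀ g ∈ Tg, D (g * word a * g⁻¹) o = 0 := by
    intro g hg
    have e1 : (g * word a)⁻¹ • o = g⁻¹ • o := by
      have e2 := hmem _ (inv_mem (hgU g hg))
      have e3 : (g * word a)⁻¹ • o = g⁻¹ • (g * word a * g⁻¹)⁻¹ • o := by
        rw [smul_smul]
        congr 1
        group
      rw [e3, e2]
    have e4 : D (word a) (g⁻¹ • o) = 0 := by
      rw [ho]
      exact D_word U φ D h1 h2 a g (hgU g hg) (hφ _ (hC g hg))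
    rw [h1, e1, h1, e4, D_inv U D h1, smul_inv_smul]
    ring
  have hcl : ∀ u ∈ Subgroup.closure ((fun g => g * word a * g⁻¹) '' (Tg : Set (FreeGroup (Fin k)))),
      D u o = 0 ∧ u ∈ U := by
    intro u hu
    induction hu using Subgroup.closure_induction with
    | mem u hu =>
      obtain ⟨g, hg, rfl⟩ := hu
      exact ⟨hg0 g hg, hgU g hg⟩
    | one => exact ⟨D_one U D h1 o, one_mem _⟩
    | mul u v _ _ hu hv => exact ⟨by rw [hmul u hu.2, hu.1, hv.1, add_zero], mul_mem hu.2 hv.2⟩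
    | inv u _ hu => exact ⟨by rw [hinv u hu.2, hu.1, neg_zero], inv_mem hu.2⟩
  have hηU : ∀ c : FreeGroup (Fin m), FreeGroup.lift h c ∈ U := by
    intro c
    induction c using FreeGroup.induction_on with
    | C1 => rw [map_one]; exact one_mem _
    | of x => rw [FreeGroup.lift_apply_of]; exact hhU x
    | inv_of x hx => rw [map_inv]; exact inv_mem hx
    | mul u v hu hv => rw [map_mul]; exact mul_mem hu hv
  obtain ⟨χ, hχ⟩ : ∃ χ : FreeGroup (Fin m) →* Multiplicative ℚ, ∀ c,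
      χ c = Multiplicative.ofAdd (D (FreeGroup.lift h c) o) := by
    refine ⟨MonoidHom.mk' (fun c => Multiplicative.ofAdd (D (FreeGroup.lift h c) o)) fun c c' => ?_, fun c => rfl⟩
    rw [map_mul, hmul _ (hηU c)]
    rfl
  have hχ1 : χ = 1 := by
    apply hT
    intro c hc
    rw [hχ, (hcl _ hc).1]
    rfl
  have hh0 : ∀ i, D (h i) o = 0 := by
    intro i
    have e1 := hχ (FreeGroup.of i)
    rw [hχ1, FreeGroup.lift_apply_of] at e1
    exact Multiplicative.ofAdd.injective e1.symm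
  have hU0 : ∀ u ∈ U, D u o = 0 := by
    intro u hu
    rw [hU] at hu
    have h3 : ∀ u ∈ Subgroup.closure (Set.range h ∪ (fun g => g * word a * g⁻¹) ''
        (Tg : Set (FreeGroup (Fin k)))), D u o = 0 ∧ u ∈ U := by
      intro u hu
      induction hu using Subgroup.closure_induction with
      | mem u hu =>
        rcases hu with ⟨i, rfl⟩ | ⟨g, hg, rfl⟩
        · exact ⟨hh0 i, hhU i⟩
        · exact ⟨hg0 g hg, hgU g hg⟩
      | one => exact ⟨D_one U D h1 o, one_mem _⟩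
      | mul u v _ _ hu hv => exact ⟨by rw [hmul u hu.2, hu.1, hv.1, add_zero], mul_mem hu.2 hv.2⟩
      | inv u _ hu => exact ⟨by rw [hinv u hu.2, hu.1, neg_zero], inv_mem hu.2⟩
    exact (h3 u hu).1
  obtain ⟨f, hf⟩ : ∃ f : FreeGroup (Fin k) ⧸ U → ℚ, ∀ g : FreeGroup (Fin k), f (g • o) = D g⁻¹ o := by
    have hout : ∀ z : FreeGroup (Fin k) ⧸ U, z.out • o = z := by
      intro z
      rw [ho]
      show ((z.out * 1 : FreeGroup (Fin k)) : FreeGroup (Fin k) ⧸ U) = z
      rw [mul_one, QuotientGroup.out_eq']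
    refine ⟨fun z => D (z.out)⁻¹ o, fun g => ?_⟩
    dsimp only
    have e1 := hout (g • o)
    have e2 : g⁻¹ * (g • o).out ∈ U := by
      have e3 : (g⁻¹ * (g • o).out) • o = o := by
        rw [mul_smul, e1, inv_smul_smul]
      have e3' : (g⁻¹ * (g • o).out) • ((1 : FreeGroup (Fin k)) : FreeGroup (Fin k) ⧸ U) =
          ((1 : FreeGroup (Fin k)) : FreeGroup (Fin k) ⧸ U) := by
        rw [← ho]
        exact e3
      have e4 : ((g⁻¹ * (g • o).out * 1 : FreeGroup (Fin k)) : FreeGroup (Fin k) ⧸ U) =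
        ((1 : FreeGroup (Fin k)) : FreeGroup (Fin k) ⧸ U) := e3'
      rw [eq_comm, QuotientGroup.eq] at e4
      simpa using e4
    obtain ⟨u, hu⟩ : ∃ u, u = g⁻¹ * (g • o).out := ⟨_, rfl⟩
    have e5 : (g • o).out = g * u := by rw [hu, mul_inv_cancel_left]
    rw [← hu] at e2
    rw [e5, mul_inv_rev, hmul _ (inv_mem e2), hU0 _ (inv_mem e2), zero_add]
  refine ⟨f, fun e _ => ?_⟩
  obtain ⟨z, x⟩ := e
  obtain ⟨g, rfl⟩ : ∃ g : FreeGroup (Fin k), g • o = z := by
    refine ⟨z.out, ?_⟩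
    rw [ho]
    show ((z.out * 1 : FreeGroup (Fin k)) : FreeGroup (Fin k) ⧸ U) = z
    rw [mul_one, QuotientGroup.out_eq']
  dsimp only
  have e1 : sg U x (g • o) = ((FreeGroup.of x)⁻¹ * g) • o := by
    rw [mul_smul]
    rfl
  rw [e1, hf, hf, mul_inv_rev, inv_inv, h1, inv_inv, h2]
  ring

theorem loc_ind [NeZero n] (a : ZMod n → Fin k × Bool) (hr : CRed a) (hp : Prim a)
    {G : Type} [Group G] (ψ : FreeGroup (Fin k) →* G) (hs : Function.Surjective ψ)
    (hk : ψ.ker = Subgroup.normalClosure {word a}) (H : Subgroup G) (hH : H.FG) (hne : H ≠ ⊥) :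
    ∃ χ : H →* Multiplicative ℚ, χ ≠ 1 := by
  classical
  by_contra hcon
  push Not at hcon
  apply hne
  obtain ⟨S, hS⟩ := hH
  obtain ⟨m, h, hh⟩ : ∃ (m : ℕ) (h : Fin m → FreeGroup (Fin k)), Subgroup.closure (Set.range fun i => ψ (h i)) = H := by
    choose g hg using hs
    refine ⟨S.card, fun i => g (S.equivFin.symm i).1, ?_⟩
    rw [← hS]
    congr 1
    ext x
    simp only [hg, Set.mem_range, Finset.mem_coe]
    constructor
    · rintro ⟨i, rfl⟩
      exact (S.equivFin.symm i).2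
    · intro hx
      exact ⟨S.equivFin ⟨x, hx⟩, by simp⟩
  have hη : ∀ c : FreeGroup (Fin m), ψ (FreeGroup.lift h c) ∈ H := by
    intro c
    rw [← hh]
    induction c using FreeGroup.induction_on with
    | C1 => rw [map_one, map_one]; exact one_mem _
    | of x => rw [FreeGroup.lift_apply_of]; exact Subgroup.subset_closure ⟨x, rfl⟩
    | inv_of x hx => rw [map_inv, map_inv]; exact inv_mem hx
    | mul u v hu hv => rw [map_mul, map_mul]; exact mul_mem hu hv
  obtain ⟨θ, hθ⟩ : ∃ θ : FreeGroup (Fin m) →* H, ∀ c, (θ c : G) = ψ (FreeGroup.lift h c) :=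
    ⟨(ψ.comp (FreeGroup.lift h)).codRestrict H hη, fun c => rfl⟩
  have hθs : Function.Surjective θ := by
    have key : ∀ x ∈ Subgroup.closure (Set.range fun i => ψ (h i)), ∃ c, ψ (FreeGroup.lift h c) = x := by
      intro x hx
      induction hx using Subgroup.closure_induction with
      | mem x hx =>
        obtain ⟨i, rfl⟩ := hx
        exact ⟨FreeGroup.of i, by rw [FreeGroup.lift_apply_of]⟩
      | one => exact ⟨1, by rw [map_one, map_one]⟩
      | mul x y _ _ hx hy =>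
        obtain ⟨c, hc⟩ := hx
        obtain ⟨d, hd⟩ := hy
        exact ⟨c * d, by rw [map_mul, map_mul, hc, hd]⟩
      | inv x _ hx =>
        obtain ⟨c, hc⟩ := hx
        exact ⟨c⁻¹, by rw [map_inv, map_inv, hc]⟩
    rintro ⟨x, hx⟩
    obtain ⟨c, hc⟩ := key x (by rw [hh]; exact hx)
    exact ⟨c, Subtype.ext ((hθ c).trans hc)⟩
  obtain ⟨T, hT1, hT2⟩ := fin_test θ.ker (by
    intro χ hχ
    have h3 : θ.ker ≤ χ.ker := fun c hc => hχ c hc
    have h4 := hcon (θ.liftOfSurjective hθs ⟨χ, h3⟩)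
    refine MonoidHom.ext fun c => ?_
    have h5 := MonoidHom.liftOfRightInverse_comp_apply θ _ (Function.rightInverse_surjInv hθs) ⟨χ, h3⟩ c
    rw [← h5]
    show (θ.liftOfSurjective hθs ⟨χ, h3⟩) (θ c) = 1
    rw [h4]
    rfl)
  have h6 : ∀ c ∈ T, ∃ T' : Finset (FreeGroup (Fin k)), FreeGroup.lift h c ∈
      Subgroup.closure ((fun g => g * word a * g⁻¹) '' (T' : Set (FreeGroup (Fin k)))) := by
    intro c hc
    have h7 : FreeGroup.lift h c ∈ ψ.ker := by
      rw [MonoidHom.mem_ker, ← hθ, hT1 c hc]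
      rfl
    rw [hk, normal_closure_eq] at h7
    exact fin_closure _ _ h7
  choose! T' hT' using h6
  obtain ⟨Tg, hTg⟩ : ∃ Tg : Finset (FreeGroup (Fin k)), ∀ c ∈ T, FreeGroup.lift h c ∈
      Subgroup.closure ((fun g => g * word a * g⁻¹) '' (Tg : Set (FreeGroup (Fin k)))) := by
    refine ⟨T.biUnion T', fun c hc => ?_⟩
    refine Subgroup.closure_mono (Set.image_mono ?_) (hT' c hc)
    intro g hg
    exact Finset.mem_coe.2 (Finset.mem_biUnion.2 ⟨c, hc, hg⟩)
  obtain ⟨U, hU⟩ : ∃ U : Subgroup (FreeGroup (Fin k)), U = Subgroup.closure (Set.range h ∪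
      (fun g => g * word a * g⁻¹) '' (Tg : Set (FreeGroup (Fin k)))) := ⟨_, rfl⟩
  have hgU : ∀ g ∈ Tg, g * word a * g⁻¹ ∈ U := by
    intro g hg
    rw [hU]
    exact Subgroup.subset_closure (Or.inr ⟨g, hg, rfl⟩)
  have hhU : ∀ i, h i ∈ U := by
    intro i
    rw [hU]
    exact Subgroup.subset_closure (Or.inl ⟨i, rfl⟩)
  obtain ⟨o, ho⟩ : ∃ o : FreeGroup (Fin k) ⧸ U, o = ((1 : FreeGroup (Fin k)) : FreeGroup (Fin k) ⧸ U) := ⟨_, rfl⟩
  choose E1 hE1 using fun i : Fin m => exists_uses (sg U) (h i).toWord o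
  obtain ⟨E, hE, hE'⟩ : ∃ E : Finset ((FreeGroup (Fin k) ⧸ U) × Fin k), (∀ i, E1 i ⊆ E) ∧
      ∀ g ∈ Tg, ∀ i, edg a (cel U a g) i ∈ E := by
    refine ⟨Finset.univ.biUnion E1 ∪ Tg.biUnion fun g => Finset.univ.image fun i => edg a (cel U a g) i,
      fun i => ?_, fun g hg i => ?_⟩
    · exact (Finset.subset_biUnion_of_mem E1 (Finset.mem_univ i)).trans Finset.subset_union_left
    · refine Finset.mem_union_right _ (Finset.mem_biUnion.2 ⟨g, hg, Finset.mem_image.2 ⟨i, Finset.mem_univ _, rfl⟩⟩)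
  obtain ⟨st, hst1, hst2⟩ := exists_stack a hr hp
  have hψ : ψ (word a) = 1 := by
    rw [← MonoidHom.mem_ker, hk]
    exact Subgroup.subset_normalClosure rfl
  have hH1 : H1Zero (sg U) a E (Tg.image (cel U a)) := by
    refine h1zero_of a h Tg U hU ?_ E _ fun g hg => Finset.mem_image_of_mem _ hg
    intro χ hχ
    exact hT2 χ fun c hc => hχ c (hTg c hc)
  have hall : ∀ i, ψ (h i) = 1 := by
    intro i
    have h8 := triv (sg U) a hr st hst1 hst2 ψ hψ E (Tg.image (cel U a)) (by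
        intro p hp
        obtain ⟨g, hg, rfl⟩ := Finset.mem_image.1 hp
        exact isCell_cel U a g (hgU g hg)) (by
        intro p hp i
        obtain ⟨g, hg, rfl⟩ := Finset.mem_image.1 hp
        exact hE' g hg i) hH1 (h i).toWord o (uses_mono _ (hE i) _ _ (hE1 i)) (by
        rw [walk_sg, FreeGroup.mk_toWord, ho]
        exact mem_smul U _ (inv_mem (hhU i)))
    rwa [FreeGroup.mk_toWord] at h8
  rw [← hh, eq_bot_iff, Subgroup.closure_le]
  rintro x ⟨i, rfl⟩
  exact hall i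

end Pool.Agent.MelL
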