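import Mathlib

/-! Stackings of cyclic words (Louder, Wilton), in algebraic form: a cyclically reduced cyclic word which
is not a proper power has an injective height function on its positions such that the order of the
starting points of two edges with the same letter is the order of their end points. -/

set_option autoImplicit false

set_option linter.unusedSectionVars false

namespace Pool.Agent.MelL.Stk

open Finset Classical

variable {α : Type*} {n : ℕ} [NeZero n] (w : ZMod n → α × Bool)

/-- the position where the edge `i` starts (`w i` is read from `i` to `i + 1`) -/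
def sta (i : ZMod n) : ZMod n := if (w i).2 then i else i + 1

/-- the position where the edge `i` ends -/
def fin (i : ZMod n) : ZMod n := if (w i).2 then i + 1 else i

/-- height functions compatible with the letters -/
def Compat (F : ZMod n → ℕ) : Prop :=
  ∀ i j, (w i).1 = (w j).1 → (F (sta w i) < F (sta w j) ↔ F (fin w i) < F (fin w j))

variable {w}

theorem Compat.eq {F : ZMod n → ℕ} (h : Compat w F) {i j : ZMod n} (hij : (w i).1 = (w j).1) :
    F (sta w i) = F (sta w j) ↔ F (fin w i) = F (fin w j) := by
  have h1 := h i j hij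
  have h2 := h j i hij.symm
  omega

/-- ranks -/
noncomputable def rk {L : Type*} [LinearOrder L] (G : ZMod n → L) (i : ZMod n) : ℕ :=
  (univ.filter fun k => G k < G i).card

theorem rk_lt {L : Type*} [LinearOrder L] (G : ZMod n → L) (i j : ZMod n) :
    rk G i < rk G j ↔ G i < G j := by
  constructor
  · intro h
    by_contra hc
    rw [not_lt] at hc
    refine absurd h (not_lt.2 (card_le_card fun k hk => ?_))
    rw [mem_filter] at hk ⊢
    exact ⟨hk.1, hk.2.trans_le hc⟩
  · intro h
    refine card_lt_card ((ssubset_iff_of_subset fun k hk => ?_).2 ⟨i, ?_, ?_⟩)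
    · rw [mem_filter] at hk ⊢
      exact ⟨hk.1, hk.2.trans h⟩
    · rw [mem_filter]
      exact ⟨mem_univ _, h⟩
    · rw [mem_filter]
      exact fun hk => lt_irrefl _ hk.2

theorem rk_eq {L : Type*} [LinearOrder L] (G : ZMod n → L) (i j : ZMod n) :
    rk G i = rk G j ↔ G i = G j := by
  have h1 := rk_lt G i j
  have h2 := rk_lt G j i
  constructor
  · intro h
    rcases lt_trichotomy (G i) (G j) with h3 | h3 | h3
    · exact absurd (h1.2 h3) (by omega)
    · exact h3
    · exact absurd (h2.2 h3) (by omega)
  · intro h
    rw [rk, rk, h]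

/-- the number of pairs of positions at the same height -/
noncomputable def mu (F : ZMod n → ℕ) : ℕ :=
  ((univ : Finset (ZMod n × ZMod n)).filter fun p => F p.1 = F p.2).card

/-- refinement of a compatible height function -/
theorem refine' {F : ZMod n → ℕ} (hF : Compat w F) (g : ZMod n → ℚ)
    (hg : ∀ i j, (w i).1 = (w j).1 → F (sta w i) = F (sta w j) →
      g (fin w i) - g (sta w i) = g (fin w j) - g (sta w j))
    {i₀ j₀ : ZMod n} (h0 : F i₀ = F j₀) (h1 : g i₀ ≠ g j₀) :
    ∃ F' : ZMod n → ℕ, Compat w F' ∧ mu F' < mu F := by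
  let G : ZMod n → ℕ ×ₗ ℚ := fun i => toLex (F i, g i)
  have hG : ∀ i j, G i < G j ↔ F i < F j ∨ (F i = F j ∧ g i < g j) := fun i j =>
    Prod.Lex.toLex_lt_toLex
  refine ⟨rk G, ?_, ?_⟩
  · intro i j hij
    rw [rk_lt, rk_lt, hG, hG, hF i j hij]
    refine or_congr Iff.rfl ?_
    rw [hF.eq hij]
    refine and_congr_right fun h => ?_
    have h2 := hg i j hij ((hF.eq hij).2 h)
    constructor <;> intro h3 <;> linarith
  · have hE : ∀ i j, rk G i = rk G j → F i = F j := by
      intro i j h
      rw [rk_eq] at h
      exact congrArg (fun x => (ofLex x).1) h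
    refine card_lt_card ((ssubset_iff_of_subset fun p hp => ?_).2 ⟨(i₀, j₀), ?_, ?_⟩)
    · rw [mem_filter] at hp ⊢
      exact ⟨hp.1, hE _ _ hp.2⟩
    · rw [mem_filter]
      exact ⟨mem_univ _, h0⟩
    · rw [mem_filter]
      rintro ⟨-, h⟩
      rw [rk_eq] at h
      exact h1 (congrArg (fun x => (ofLex x).2) h)

/-- a function on the positions with given differences -/
theorem exists_prim (h : ZMod n → ℚ) (hs : ∑ i, h i = 0) :
    ∃ G : ZMod n → ℚ, ∀ i, G (i + 1) - G i = h i := by
  have hsum : ∑ k ∈ range n, h (k : ZMod n) = 0 := by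
    rw [← hs]
    refine sum_nbij (fun k => (k : ZMod n)) (fun _ _ => mem_univ _) ?_ ?_ (fun _ _ => rfl)
    · intro a ha b hb hab
      rw [mem_coe, mem_range] at ha hb
      have h1 := congrArg ZMod.val hab
      simpa [ZMod.val_natCast_of_lt ha, ZMod.val_natCast_of_lt hb] using h1
    · intro x _
      exact ⟨x.val, mem_coe.2 (mem_range.2 (ZMod.val_lt x)), ZMod.natCast_zmod_val x⟩
  refine ⟨fun i => ∑ k ∈ range i.val, h (k : ZMod n), fun i => ?_⟩
  have hi := ZMod.val_lt i
  have hc : ((i.val : ℕ) : ZMod n) = i := ZMod.natCast_zmod_val i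
  rcases Nat.lt_or_ge (i.val + 1) n with h1 | h1
  · have h2 : (i + 1).val = i.val + 1 := by
      conv_lhs => rw [← hc]
      rw [← Nat.cast_succ, ZMod.val_natCast_of_lt h1]
    simp only [h2, sum_range_succ, hc]
    ring
  · have h2 : i.val + 1 = n := by omega
    have h3 : i + 1 = 0 := by
      conv_lhs => rw [← hc]
      rw [← Nat.cast_succ, Nat.succ_eq_add_one, h2, ZMod.natCast_self]
    have h4 : range n = range (i.val + 1) := by rw [h2]
    rw [h4, sum_range_succ, hc] at hsum
    simp only [h3, ZMod.val_zero, range_zero, sum_empty]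
    linarith

section Stuck

variable (w) (F : ZMod n → ℕ)

/-- the label and the height of the starting point of an edge -/
def edg (i : ZMod n) : α × ℕ := ((w i).1, F (sta w i))

/-- edges of the quotient graph -/
abbrev EE : Type _ := Set.range (edg w F)

/-- vertices of the quotient graph -/
abbrev VV : Type := Set.range F

def ed (i : ZMod n) : EE w F := ⟨edg w F i, i, rfl⟩

def vv (i : ZMod n) : VV F := ⟨F i, i, rfl⟩

theorem vv_eq {i j : ZMod n} : vv F i = vv F j ↔ F i = F j := Subtype.ext_iff

theorem ed_eq {i j : ZMod n} :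
    ed w F i = ed w F j ↔ (w i).1 = (w j).1 ∧ F (sta w i) = F (sta w j) :=
  Subtype.ext_iff.trans Prod.ext_iff

noncomputable instance : Fintype (EE w F) := Fintype.ofFinite _

noncomputable instance : Fintype (VV F) := Fintype.ofFinite _

/-- a position on an edge -/
noncomputable def ie (e : EE w F) : ZMod n := e.2.choose

theorem ed_ie (e : EE w F) : ed w F (ie w F e) = e := Subtype.ext e.2.choose_spec

/-- a position at a vertex -/
noncomputable def iv (v : VV F) : ZMod n := v.2.choose

theorem vv_iv (v : VV F) : vv F (iv F v) = v := Subtype.ext v.2.choose_spec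

/-- coboundary -/
noncomputable def cob : (VV F → ℚ) →ₗ[ℚ] (EE w F → ℚ) where
  toFun g e := g (vv F (fin w (ie w F e))) - g (vv F (sta w (ie w F e)))
  map_add' g g' := by
    funext e
    simp only [Pi.add_apply]
    ring
  map_smul' c g := by
    funext e
    simp only [Pi.smul_apply, smul_eq_mul, RingHom.id_apply]
    ring

/-- sign of the edge `i` -/
def sg (i : ZMod n) : ℚ := if (w i).2 then 1 else -1

/-- the sum along the word -/
noncomputable def tot : (EE w F → ℚ) →ₗ[ℚ] ℚ where
  toFun f := ∑ i, sg w i * f (ed w F i)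
  map_add' f g := by
    simp only [Pi.add_apply, mul_add, sum_add_distrib]
  map_smul' c g := by
    simp only [Pi.smul_apply, smul_eq_mul, RingHom.id_apply, mul_sum]
    exact sum_congr rfl fun i _ => by ring

variable {F} {w}

theorem card_le (hF : Compat w F)
    (hst : ∀ g : ZMod n → ℚ, (∀ i j, (w i).1 = (w j).1 → F (sta w i) = F (sta w j) →
      g (fin w i) - g (sta w i) = g (fin w j) - g (sta w j)) → ∀ i j, F i = F j → g i = g j) :
    Fintype.card (EE w F) ≤ Fintype.card (VV F) := by
  have hle : LinearMap.ker (tot w F) ≤ LinearMap.range (cob w F) := by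
    intro f hf
    rw [LinearMap.mem_ker] at hf
    obtain ⟨G, hG⟩ := exists_prim (fun i => sg w i * f (ed w F i)) hf
    have h1 : ∀ i, G (fin w i) - G (sta w i) = f (ed w F i) := by
      intro i
      have h2 := hG i
      by_cases h3 : (w i).2 = true
      · simp only [fin, sta, sg, h3, if_true] at h2 ⊢
        linarith
      · simp only [fin, sta, sg, h3, if_false] at h2 ⊢
        simp only [Bool.false_eq_true, if_false] at h2 ⊢
        linarith
    have h2 := hst G fun i j hij hs => by
      rw [h1, h1, (ed_eq w F).2 ⟨hij, hs⟩]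
    refine ⟨fun v => G (iv F v), ?_⟩
    funext e
    have h3 : ∀ i, G (iv F (vv F i)) = G i := fun i => h2 _ _ ((vv_eq F).1 (vv_iv F _))
    change G (iv F (vv F (fin w (ie w F e)))) - G (iv F (vv F (sta w (ie w F e)))) = f e
    rw [h3, h3, h1, ed_ie]
  have e1 := LinearMap.finrank_range_add_finrank_ker (tot w F)
  have e2 := LinearMap.finrank_range_add_finrank_ker (cob w F)
  have e3 := Submodule.finrank_mono hle
  have e4 : Module.finrank ℚ (LinearMap.range (tot w F)) ≤ 1 :=
    (Submodule.finrank_le _).trans (le_of_eq (Module.finrank_self ℚ))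
  have e5 : 0 < Module.finrank ℚ (LinearMap.ker (cob w F)) := by
    rw [Module.finrank_pos_iff_exists_ne_zero]
    refine ⟨⟨fun _ => 1, ?_⟩, ?_⟩
    · rw [LinearMap.mem_ker]
      funext e
      change (1 : ℚ) - 1 = 0
      norm_num
    · intro h
      have := congrFun (congrArg Subtype.val h) (vv F 0)
      exact one_ne_zero this
  rw [Module.finrank_fintype_fun_eq_card] at e1 e2
  omega

/-- the vertex of a half edge -/
noncomputable def att (x : EE w F × Bool) : VV F :=
  if x.2 then vv F (fin w (ie w F x.1)) else vv F (sta w (ie w F x.1))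

theorem att_true (hF : Compat w F) (i : ZMod n) :
    att ((ed w F i, true) : EE w F × Bool) = vv F (fin w i) := by
  have h := (ed_eq w F).1 (ed_ie w F (ed w F i))
  simp only [att, if_true]
  exact (vv_eq F).2 ((hF.eq h.1).1 h.2)

theorem att_false (i : ZMod n) :
    att ((ed w F i, false) : EE w F × Bool) = vv F (sta w i) := by
  have h := (ed_eq w F).1 (ed_ie w F (ed w F i))
  simp only [att, Bool.false_eq_true, if_false]
  exact (vv_eq F).2 h.2

variable (w F)

/-- the half edge by which the word leaves the position `i` -/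
def hout (i : ZMod n) : EE w F × Bool := (ed w F i, !(w i).2)

/-- the half edge by which the word reaches the position `i` -/
def hin (i : ZMod n) : EE w F × Bool := (ed w F (i - 1), (w (i - 1)).2)

variable {w F}

theorem att_hout (hF : Compat w F) (i : ZMod n) : att (hout w F i) = vv F i := by
  rw [hout]
  by_cases h : (w i).2 = true
  · rw [h, Bool.not_true, att_false, sta, if_pos h]
  · rw [Bool.not_eq_true] at h
    rw [h, Bool.not_false, att_true hF, fin, if_neg (by simp [h])]

theorem att_hin (hF : Compat w F) (i : ZMod n) : att (hin w F i) = vv F i := by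
  rw [hin]
  by_cases h : (w (i - 1)).2 = true
  · rw [h, att_true hF, fin, if_pos h, sub_add_cancel]
  · rw [Bool.not_eq_true] at h
    rw [h, att_false, sta, if_neg (by simp [h]), sub_add_cancel]

theorem hout_ne_hin (hred : ∀ i, w (i + 1) ≠ ((w i).1, !(w i).2)) (i : ZMod n) :
    hout w F i ≠ hin w F i := by
  intro h
  have h1 := Prod.ext_iff.1 h
  have h2 := ((ed_eq w F).1 h1.1).1
  have h3 : (!(w i).2) = (w (i - 1)).2 := h1.2
  refine hred (i - 1) ?_
  rw [sub_add_cancel]
  refine Prod.ext h2 ?_
  rw [← h3, Bool.not_not]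

theorem att_eq (hF : Compat w F) (hred : ∀ i, w (i + 1) ≠ ((w i).1, !(w i).2))
    (hc : Fintype.card (EE w F) ≤ Fintype.card (VV F)) (x : EE w F × Bool) (i : ZMod n)
    (hx : att x = vv F i) : x = hout w F i ∨ x = hin w F i := by
  have h2 : ∀ v ∈ (univ : Finset (VV F)),
      2 ≤ ((univ : Finset (EE w F × Bool)).filter fun x => att x = v).card := by
    intro v _
    rw [← vv_iv F v, ← card_pair (hout_ne_hin (F := F) hred (iv F v))]
    refine card_le_card fun y hy => ?_
    rw [mem_insert, mem_singleton] at hy
    rw [mem_filter]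
    rcases hy with rfl | rfl
    · exact ⟨mem_univ _, att_hout hF _⟩
    · exact ⟨mem_univ _, att_hin hF _⟩
  have h3 := card_eq_sum_card_fiberwise (f := (att : EE w F × Bool → VV F))
    (s := univ) (t := univ) (fun _ _ => mem_coe.2 (mem_univ _))
  have h4 : (univ : Finset (EE w F × Bool)).card = 2 * Fintype.card (EE w F) := by
    rw [card_univ, Fintype.card_prod, Fintype.card_bool, mul_comm]
  have h5 : ∑ _v ∈ (univ : Finset (VV F)), 2 = 2 * Fintype.card (VV F) := by
    rw [sum_const, card_univ, smul_eq_mul, mul_comm]
  have h6 := sum_le_sum h2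
  have h7 := (sum_eq_sum_iff_of_le h2).1 (by omega) (vv F i) (mem_univ _)
  have h8 : ({hout w F i, hin w F i} : Finset (EE w F × Bool)) =
      (univ : Finset (EE w F × Bool)).filter fun x => att x = vv F i := by
    refine eq_of_subset_of_card_le (fun y hy => ?_) ?_
    · rw [mem_insert, mem_singleton] at hy
      rw [mem_filter]
      rcases hy with rfl | rfl
      · exact ⟨mem_univ _, att_hout hF _⟩
      · exact ⟨mem_univ _, att_hin hF _⟩
    · rw [← h7, card_pair (hout_ne_hin (F := F) hred i)]
  have h9 : x ∈ ({hout w F i, hin w F i} : Finset (EE w F × Bool)) := by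
    rw [h8, mem_filter]
    exact ⟨mem_univ _, hx⟩
  rw [mem_insert, mem_singleton] at h9
  exact h9

/-- a compatible height function which cannot be refined is injective -/
theorem inj_of_stuck (hF : Compat w F) (hred : ∀ i, w (i + 1) ≠ ((w i).1, !(w i).2))
    (hprim : ∀ p : ZMod n, (∀ x, w (x + p) = w x) → p = 0)
    (hst : ∀ g : ZMod n → ℚ, (∀ i j, (w i).1 = (w j).1 → F (sta w i) = F (sta w j) →
      g (fin w i) - g (sta w i) = g (fin w j) - g (sta w j)) → ∀ i j, F i = F j → g i = g j) :
    Function.Injective F := by
  have hc := card_le hF hst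
  have K := att_eq hF hred hc
  intro j i hij
  rcases K (hout w F j) i ((att_hout hF j).trans ((vv_eq F).2 hij)) with h0 | h0
  · -- same direction
    have h1 : ∀ k : ℕ, hout w F (j + k) = hout w F (i + k) := by
      intro k
      induction k with
      | zero => simpa using h0
      | succ k ih =>
        have h2 := Prod.ext_iff.1 ih
        have h3 : ed w F (j + k) = ed w F (i + k) := h2.1
        have h4 : (w (j + k)).2 = (w (i + k)).2 := by
          have : (!(w (j + k)).2) = (!(w (i + k)).2) := h2.2
          simpa using this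
        have h5 : hin w F (j + (k + 1 : ℕ)) = hin w F (i + (k + 1 : ℕ)) := by
          have e1 : j + ((k + 1 : ℕ) : ZMod n) - 1 = j + k := by push_cast; ring
          have e2 : i + ((k + 1 : ℕ) : ZMod n) - 1 = i + k := by push_cast; ring
          rw [hin, hin, e1, e2, h3, h4]
        have h6 : att (hout w F (j + (k + 1 : ℕ))) = vv F (i + (k + 1 : ℕ)) := by
          rw [att_hout hF, ← att_hin hF, h5, att_hin hF]
        rcases K _ _ h6 with h7 | h7
        · exact h7
        · exact absurd (h7.trans h5.symm) (hout_ne_hin hred _)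
    have h2 : ∀ k : ℕ, w (j + k) = w (i + k) := by
      intro k
      have h3 := Prod.ext_iff.1 (h1 k)
      refine Prod.ext ((ed_eq w F).1 h3.1).1 ?_
      have : (!(w (j + k)).2) = (!(w (i + k)).2) := h3.2
      simpa using this
    have h3 := hprim (j - i) fun x => by
      have h4 := h2 (x - i).val
      rw [ZMod.natCast_zmod_val] at h4
      have e1 : j + (x - i) = x + (j - i) := by ring
      have e2 : i + (x - i) = x := by ring
      rw [e1, e2] at h4
      exact h4
    exact sub_eq_zero.1 h3
  · -- opposite direction
    exfalso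
    have h1 : ∀ k : ℕ, hout w F (j + k) = hin w F (i - k) := by
      intro k
      induction k with
      | zero => simpa using h0
      | succ k ih =>
        have h2 := Prod.ext_iff.1 ih
        have h3 : ed w F (j + k) = ed w F (i - k - 1) := h2.1
        have h4 : (!(w (j + k)).2) = (w (i - k - 1)).2 := h2.2
        have h5 : hin w F (j + (k + 1 : ℕ)) = hout w F (i - (k + 1 : ℕ)) := by
          have e1 : j + ((k + 1 : ℕ) : ZMod n) - 1 = j + k := by push_cast; ring
          have e2 : i - ((k + 1 : ℕ) : ZMod n) = i - k - 1 := by push_cast; ring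
          rw [hin, hout, e1, e2, h3, ← h4, Bool.not_not]
        have h6 : att (hout w F (j + (k + 1 : ℕ))) = vv F (i - (k + 1 : ℕ)) := by
          rw [att_hout hF, ← att_hin hF, h5, att_hout hF]
        rcases K _ _ h6 with h7 | h7
        · exact absurd (h7.trans h5.symm) (hout_ne_hin hred _)
        · exact h7
    rcases Nat.even_or_odd' (i - j).val with ⟨k, hk | hk⟩
    · have h2 : i - j = ((2 * k : ℕ) : ZMod n) := by rw [← hk, ZMod.natCast_zmod_val]
      have h3 : j + (k : ZMod n) = i - k := by
        push_cast at h2
        linear_combination -h2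
      exact hout_ne_hin hred _ ((h1 k).trans (by rw [h3]))
    · have h2 : i - j = ((2 * k + 1 : ℕ) : ZMod n) := by rw [← hk, ZMod.natCast_zmod_val]
      have h3 : i - k - 1 = j + (k : ZMod n) := by
        push_cast at h2
        linear_combination h2
      have h4 : (!(w (j + k)).2) = (w (i - k - 1)).2 := (Prod.ext_iff.1 (h1 k)).2
      rw [h3] at h4
      simp at h4

end Stuck

/-- **Stackings.** A cyclically reduced cyclic word which is not a proper power has an injective height
function on its positions, compatible with the letters. -/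
theorem exists_stack (hred : ∀ i, w (i + 1) ≠ ((w i).1, !(w i).2))
    (hprim : ∀ p : ZMod n, (∀ x, w (x + p) = w x) → p = 0) :
    ∃ F : ZMod n → ℕ, Function.Injective F ∧ Compat w F := by
  have key : ∀ m : ℕ, ∀ F : ZMod n → ℕ, Compat w F → mu F = m →
      ∃ F : ZMod n → ℕ, Function.Injective F ∧ Compat w F := by
    intro m
    induction m using Nat.strong_induction_on with
    | _ m ih =>
      intro F hF hm
      by_cases hst : ∀ g : ZMod n → ℚ, (∀ i j, (w i).1 = (w j).1 → F (sta w i) = F (sta w j) →
          g (fin w i) - g (sta w i) = g (fin w j) - g (sta w j)) → ∀ i j, F i = F j → g i = g j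
      · exact ⟨F, inj_of_stuck hF hred hprim hst, hF⟩
      · push Not at hst
        obtain ⟨g, hg, i, j, hij, hne⟩ := hst
        obtain ⟨F', hF', hmu⟩ := refine' hF g hg hij hne
        exact ih _ (hm ▸ hmu) F' hF' rfl
  exact key _ (fun _ => 0) (fun _ _ _ => Iff.rfl) rfl

end Pool.Agent.MelL.Stk
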