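import Pool.Agent.MelL.Def
import Pool.Agent.MelL.StackCore

/-!
# Existence of stackings (module L1)

Among the maps `h : ZMod n → ℕ` with `Compat a h` (the constants are compatible) choose one with the largest number
of values.  Claim: `h` is injective.  `i ~ j` means `h i = h j`.  By `Compat` (both directions), for equal generators
`h (sp a i) = h (sp a j) ↔ h (ep a i) = h (ep a j)`: so the classes are the vertices of a labelled graph, with
edges the pairs `(h (sp a i), (a i).1)`; `V` classes, `Eq` edges.
(1) `Eq > V`: refine.  The space of the `φ : edges → ℚ` with `∑ i, ε_i φ (edge i) = 0` (`ε_i = 1` if `(a i).2`, else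
  `-1`) has dimension at least `Eq - 1`; the coboundaries `φ (edge i) = f (h (ep a i)) - f (h (sp a i))` form a
  space of dimension at most `V - 1` (constants have coboundary `0`).  So there is such a `φ` which is no coboundary.
  Let `lv i = ∑ j < i, ε_j φ (edge j)` (sum over `0 ≤ j < i.val`; `lv (i + 1) = lv i + ε_i φ (edge i)` also for the
  last `i`).  Order the positions lexicographically by `(h i, lv i)` and take the rank `h'` (number of positions which are
  strictly smaller).  `Compat a h'`: for equal generators, if `h (sp i) = h (sp j)` then `h (ep i) = h (ep j)`, the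
  edges are equal and `lv (ep i) - lv (sp i) = φ (edge) = lv (ep j) - lv (sp j)`.  `h'` has more values than `h`: it
  refines `h`; if no class were divided, `lv` would be a function of `h` and `φ` a coboundary.
(2) `Eq ≤ V`: at a position `i` there are two different half edges at the class of `i`: the letter `a i` and the inverse of
  the letter `a (i - 1)` (`CRed`).  Count the pairs (class, letter `l` such that some position `i` of the class has
  `a i = l` or `a (i - 1) = l⁻¹`): there are `2 Eq` of them and at least two for each class; so exactly two for each
  class.  Let `h i = h j`, `j = i + d`, `i ≠ j`.  Either `a i = a j` or `a i = (a (j - 1))⁻¹`.  In the second case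
  by `Compat` `h (i + 1) = h (j - 1)`, and again `a (i + 1) = (a (j - 2))⁻¹` [at the class of `i + 1` and `j - 1` the
  half edge `(a i)⁻¹ = a (j - 1)` is used, so the other ones are equal: `a (i + 1) = (a (j - 2))⁻¹`], etc.:
  `a (i + t) = (a (j - 1 - t))⁻¹` for all `t`; if `d` is even take `t = d / 2`: `a m = (a (m - 1))⁻¹`, against `CRed`;
  if `d` is odd take `t = (d - 1) / 2`: a letter is its own inverse.  Contradiction.  So `a i = a j`, and then
  `h (i + 1) = h (j + 1)`, and so on (at every step the first case holds): `a (i + t) = a (j + t)` for all `t`: the
  rotation by `j - i` fixes `a`: `i = j` by `Prim`.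
-/

open Finset

namespace Pool.Agent.MelL

variable {k n : ℕ}

theorem exists_stack [NeZero n] (a : ZMod n → Fin k × Bool) (hr : CRed a) (hp : Prim a) :
    ∃ h : ZMod n → ℕ, Function.Injective h ∧ Compat a h := by
  obtain ⟨F, hF, h⟩ := Stk.exists_stack (w := a) (fun i h => by
    have h1 := hr i (by rw [h])
    rw [h] at h1
    cases h2 : (a i).2 <;> simp [h2] at h1) hp
  exact ⟨F, hF, h⟩

end Pool.Agent.MelL
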