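import Mathlib

/-!
# Locally indicable groups have no zero divisors in their group rings (Higman; module L5)

Unique products: finite non empty `A, B`; induction on `|A| + |B|`.  Translate (left for `A`, right for `B`) so that
`1 ∈ A`, `1 ∈ B`; let `H` be generated by `A ∪ B`.  If `H = ⊥` then `A = B = {1}`.  Otherwise `χ : H → ℚ` non trivial;
`A'`, `B'` = the elements with maximal `χ`: not both `A' = A` and `B' = B`; a unique product of `A', B'` is one of
`A, B`.  `UniqueProds` implies `NoZeroDivisors` (Mathlib, `MonoidAlgebra`).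
-/

open Finset

namespace Pool.Agent.MelL

/-- Locally indicable groups. -/
def LocInd (G : Type) [Group G] : Prop :=
  ∀ H : Subgroup G, H.FG → H ≠ ⊥ → ∃ χ : H →* Multiplicative ℚ, χ ≠ 1

private theorem up_aux {G : Type} [Group G] (h : LocInd G) (n : ℕ) :
    ∀ A B : Finset G, A.Nonempty → B.Nonempty → A.card + B.card ≤ n →
      ∃ a ∈ A, ∃ b ∈ B, UniqueMul A B a b := by
  classical
  induction n with
  | zero =>
    intro A B hA hB hn
    have := hA.card_pos
    omega
  | succ n ih =>
    intro A B hA hB hn
    obtain ⟨a1, ha1⟩ := hA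
    obtain ⟨b1, hb1⟩ := hB
    set A1 : Finset G := A.image fun a => a1⁻¹ * a with hA1
    set B1 : Finset G := B.image fun b => b * b1⁻¹ with hB1
    set H : Subgroup G := Subgroup.closure (↑(A1 ∪ B1) : Set G) with hH
    have memA : ∀ a ∈ A, a1⁻¹ * a ∈ H := fun a ha => Subgroup.subset_closure
      (by simp only [coe_union, Set.mem_union, mem_coe]
          exact Or.inl (mem_image_of_mem _ ha))
    have memB : ∀ b ∈ B, b * b1⁻¹ ∈ H := fun b hb => Subgroup.subset_closure
      (by simp only [coe_union, Set.mem_union, mem_coe]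
          exact Or.inr (mem_image_of_mem _ hb))
    by_cases hbot : H = ⊥
    · refine UniqueMul.of_card_le_one ⟨a1, ha1⟩ ⟨b1, hb1⟩ ?_ ?_
      · rw [Finset.card_le_one]
        intro x hx y hy
        have e1 := memA x hx
        have e2 := memA y hy
        rw [hbot, Subgroup.mem_bot] at e1 e2
        exact mul_left_cancel (e1.trans e2.symm)
      · rw [Finset.card_le_one]
        intro x hx y hy
        have e1 := memB x hx
        have e2 := memB y hy
        rw [hbot, Subgroup.mem_bot] at e1 e2
        exact mul_right_cancel (e1.trans e2.symm)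
    · obtain ⟨χ, hχ⟩ := h H ⟨A1 ∪ B1, rfl⟩ hbot
      -- the character as a function
      let v : G → ℚ := fun g => if hg : g ∈ H then Multiplicative.toAdd (χ ⟨g, hg⟩) else 0
      have v_mul : ∀ x ∈ H, ∀ y ∈ H, v (x * y) = v x + v y := by
        intro x hx y hy
        have hxy : x * y ∈ H := mul_mem hx hy
        have e : (⟨x * y, hxy⟩ : H) = ⟨x, hx⟩ * ⟨y, hy⟩ := rfl
        simp only [v, hx, hy, hxy, dif_pos]
        rw [e, map_mul, toAdd_mul]
      have v_one : v 1 = 0 := by
        have := v_mul 1 (one_mem _) 1 (one_mem _)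
        rw [mul_one] at this
        linarith
      obtain ⟨am, ham, hmaxA⟩ := Finset.exists_max_image A (fun a => v (a1⁻¹ * a)) ⟨a1, ha1⟩
      obtain ⟨bm, hbm, hmaxB⟩ := Finset.exists_max_image B (fun b => v (b * b1⁻¹)) ⟨b1, hb1⟩
      set A' : Finset G := A.filter fun a => v (a1⁻¹ * a) = v (a1⁻¹ * am) with hA'
      set B' : Finset G := B.filter fun b => v (b * b1⁻¹) = v (bm * b1⁻¹) with hB'
      have hcard : A'.card + B'.card < A.card + B.card := by
        have c1 : A'.card ≤ A.card := Finset.card_le_card (Finset.filter_subset _ _)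
        have c2 : B'.card ≤ B.card := Finset.card_le_card (Finset.filter_subset _ _)
        by_contra hcon
        have e1 : A' = A := Finset.eq_of_subset_of_card_le (Finset.filter_subset _ _) (by omega)
        have e2 : B' = B := Finset.eq_of_subset_of_card_le (Finset.filter_subset _ _) (by omega)
        have z1 : v (a1⁻¹ * am) = 0 := by
          have : a1 ∈ A' := by rw [e1]; exact ha1
          have := (Finset.mem_filter.1 this).2
          rw [inv_mul_cancel, v_one] at this
          exact this.symm
        have z2 : v (bm * b1⁻¹) = 0 := by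
          have : b1 ∈ B' := by rw [e2]; exact hb1
          have := (Finset.mem_filter.1 this).2
          rw [mul_inv_cancel, v_one] at this
          exact this.symm
        apply hχ
        have key : ∀ x (hx : x ∈ H), χ ⟨x, hx⟩ = 1 := by
          intro x hx
          induction hx using Subgroup.closure_induction with
          | mem y hy =>
            have hy' : v y = 0 := by
              simp only [coe_union, Set.mem_union, mem_coe] at hy
              rcases hy with hy | hy
              · obtain ⟨a, ha, rfl⟩ := Finset.mem_image.1 hy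
                rw [← e1] at ha
                rw [(Finset.mem_filter.1 ha).2, z1]
              · obtain ⟨b, hb, rfl⟩ := Finset.mem_image.1 hy
                rw [← e2] at hb
                rw [(Finset.mem_filter.1 hb).2, z2]
            have hyH : y ∈ H := Subgroup.subset_closure hy
            simp only [v, hyH, dif_pos] at hy'
            exact toAdd_eq_zero.1 hy'
          | one => exact map_one χ
          | mul y z hy hz h1 h2 =>
            have e : (⟨y * z, mul_mem hy hz⟩ : H) = ⟨y, hy⟩ * ⟨z, hz⟩ := rfl
            rw [e, map_mul, h1, h2, one_mul]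
          | inv y hy h1 =>
            have e : (⟨y⁻¹, inv_mem hy⟩ : H) = ⟨y, hy⟩⁻¹ := rfl
            rw [e, map_inv, h1, inv_one]
        ext ⟨x, hx⟩
        rw [key x hx]
        rfl
      obtain ⟨a0, ha0, b0, hb0, hu⟩ := ih A' B' ⟨am, Finset.mem_filter.2 ⟨ham, rfl⟩⟩
        ⟨bm, Finset.mem_filter.2 ⟨hbm, rfl⟩⟩ (by omega)
      obtain ⟨ha0A, ha0v⟩ := Finset.mem_filter.1 ha0
      obtain ⟨hb0B, hb0v⟩ := Finset.mem_filter.1 hb0
      refine ⟨a0, ha0A, b0, hb0B, fun a b ha hb hab => ?_⟩
      have e : (a1⁻¹ * a) * (b * b1⁻¹) = (a1⁻¹ * a0) * (b0 * b1⁻¹) := by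
        have : (a1⁻¹ * a) * (b * b1⁻¹) = a1⁻¹ * (a * b) * b1⁻¹ := by group
        rw [this, hab]
        group
      have e' := congrArg v e
      rw [v_mul _ (memA a ha) _ (memB b hb), v_mul _ (memA a0 ha0A) _ (memB b0 hb0B), ha0v, hb0v] at e'
      have l1 := hmaxA a ha
      have l2 := hmaxB b hb
      exact hu (Finset.mem_filter.2 ⟨ha, by linarith⟩) (Finset.mem_filter.2 ⟨hb, by linarith⟩) hab

/-- Locally indicable groups have unique products. -/
theorem uniqueProds_of_locInd {G : Type} [Group G] (h : LocInd G) : UniqueProds G :=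
  ⟨fun {A B} hA hB => up_aux h _ A B hA hB le_rfl⟩

theorem noZero_of_locInd {G : Type} [Group G] (h : LocInd G) (K : Type) [Field K] :
    NoZeroDivisors (MonoidAlgebra K G) := by
  have := uniqueProds_of_locInd h
  infer_instance

/-- Subgroups (injective preimages) of locally indicable groups. -/
theorem locInd_of_injective {G G' : Type} [Group G] [Group G'] (f : G' →* G)
    (hf : Function.Injective f) (h : LocInd G) : LocInd G' := by
  intro H hH hne
  have hfg : (H.map f).FG := by
    obtain ⟨S, hS⟩ := hH
    classical
    exact ⟨S.image f, by rw [Finset.coe_image, ← MonoidHom.map_closure, hS]⟩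
  have hne' : H.map f ≠ ⊥ := by
    intro e
    exact hne ((Subgroup.map_eq_bot_iff_of_injective H hf).1 e)
  obtain ⟨χ, hχ⟩ := h _ hfg hne'
  let e := H.equivMapOfInjective f hf
  refine ⟨χ.comp e.toMonoidHom, fun h1 => hχ ?_⟩
  ext y
  obtain ⟨x, rfl⟩ := e.surjective y
  exact congrArg (fun φ : H →* Multiplicative ℚ => Multiplicative.toAdd (φ x)) h1

theorem locInd_subgroup {G : Type} [Group G] (h : LocInd G) (A : Subgroup G) : LocInd A :=
  locInd_of_injective A.subtype A.subtype_injective h

theorem locInd_equiv {G G' : Type} [Group G] [Group G'] (e : G ≃* G') (h : LocInd G) : LocInd G' :=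
  locInd_of_injective e.symm.toMonoidHom e.symm.injective h

/-- Free groups are locally indicable (subgroups of free groups are free). -/
theorem locInd_free (α : Type) : LocInd (FreeGroup α) := by
  intro H _ hne
  let e := IsFreeGroup.toFreeGroup H
  have hG : Nonempty (IsFreeGroup.Generators H) := by
    by_contra hcon
    rw [not_nonempty_iff] at hcon
    apply hne
    rw [Subgroup.eq_bot_iff_forall]
    intro x hx
    have : (⟨x, hx⟩ : H) = 1 := e.injective (Subsingleton.elim _ _)
    exact congrArg Subtype.val this
  obtain ⟨g⟩ := hG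
  refine ⟨(FreeGroup.lift fun _ => Multiplicative.ofAdd (1 : ℚ)).comp e.toMonoidHom, fun h1 => ?_⟩
  have h2 := congrArg (fun φ : H →* Multiplicative ℚ => φ (e.symm (FreeGroup.of g))) h1
  simp only [MonoidHom.comp_apply, MonoidHom.one_apply] at h2
  have h3 : e.toMonoidHom (e.symm (FreeGroup.of g)) = FreeGroup.of g := e.apply_symm_apply _
  rw [h3, FreeGroup.lift_apply_of] at h2
  have h4 := congrArg Multiplicative.toAdd h2
  simp at h4

end Pool.Agent.MelL
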