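import Pool.Agent.MelD.ClosedG
import Pool.Agent.MelL.Loc
import Pool.Agent.MelL.UP

/-!
# Torsion-free one-relator groups and Mel'nikov groups, first part

`presCyc`: the group presented by `y ^ p` is the group generated by an element of order `p`.
`tf_of_melnikov`: infinite Mel'nikov groups are torsion-free.
`locInd_of_cyc`: local indicability for torsion-free groups with one relator, a conjugate of a power of a
cyclically reduced primitive word.
-/

open Finset

namespace Pool.Agent.MelL

open Pool.Agent.MelG (HasRel IsMelnikov)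

/-- A homomorphism from a free group which is onto and whose kernel is the normal closure of `R`. -/
theorem pres_equiv {α : Type} {R : Set (FreeGroup α)} {S : Type} [Group S] (f : FreeGroup α →* S)
    (hf : Function.Surjective f) (hk : f.ker = Subgroup.normalClosure R) :
    Nonempty (PresentedGroup R ≃* S) := by
  exact ⟨(QuotientGroup.quotientMulEquivOfEq hk.symm).trans
    (QuotientGroup.quotientKerEquivOfSurjective f hf)⟩

theorem free1_pow (w : FreeGroup (Fin 1)) : ∃ k : ℤ, w = (FreeGroup.of (0 : Fin 1)) ^ k := by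
  induction w using FreeGroup.induction_on with
  | C1 => exact ⟨0, by simp⟩
  | of x => exact ⟨1, by rw [Subsingleton.elim x 0]; simp⟩
  | inv_of x _ => exact ⟨-1, by rw [Subsingleton.elim x 0]; simp⟩
  | mul x y hx hy =>
    obtain ⟨k, rfl⟩ := hx
    obtain ⟨l, rfl⟩ := hy
    exact ⟨k + l, by rw [zpow_add]⟩

theorem pres_cyc {G : Type} [Group G] (h : G) :
    Nonempty (PresentedGroup ({(FreeGroup.of (0 : Fin 1)) ^ orderOf h} : Set (FreeGroup (Fin 1))) ≃*
      Subgroup.zpowers h) := by
  let f : FreeGroup (Fin 1) →* Subgroup.zpowers h :=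
    FreeGroup.lift fun _ => ⟨h, Subgroup.mem_zpowers h⟩
  have f0 : ∀ k : ℤ, (f ((FreeGroup.of (0 : Fin 1)) ^ k) : G) = h ^ k := by
    intro k
    rw [map_zpow]
    simp [f]
  refine pres_equiv f ?_ ?_
  · rintro ⟨x, k, rfl⟩
    exact ⟨(FreeGroup.of (0 : Fin 1)) ^ k, Subtype.ext (f0 k)⟩
  · apply le_antisymm
    · intro w hw
      obtain ⟨k, rfl⟩ := free1_pow w
      rw [MonoidHom.mem_ker] at hw
      have h1 : h ^ k = 1 := by
        rw [← f0 k, hw]
        rfl
      obtain ⟨l, rfl⟩ := orderOf_dvd_iff_zpow_eq_one.mpr h1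
      rw [zpow_mul, zpow_natCast]
      exact Subgroup.zpow_mem _ (Subgroup.subset_normalClosure (Set.mem_singleton _)) l
    · refine Subgroup.normalClosure_le_normal ?_
      rintro _ rfl
      rw [SetLike.mem_coe, MonoidHom.mem_ker]
      apply Subtype.ext
      rw [← zpow_natCast, f0, zpow_natCast, pow_orderOf_eq_one]
      rfl

/-- Finite subgroups of residually finite groups are closed. -/
theorem closed_of_finite {G : Type} [Group G]
    (hG : ∀ g : G, g ≠ 1 → ∃ H : Subgroup G, H.FiniteIndex ∧ g ∉ H) (S : Subgroup G)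
    (hS : Finite S) : Pool.Agent.MelD.IsProClosed S := by
  intro x hx
  have h1 : ∀ s : S, ∃ H : Subgroup G, H.FiniteIndex ∧ (s : G)⁻¹ * x ∉ H := by
    intro s
    refine hG _ fun h => hx ?_
    have : x = s := by
      rw [inv_mul_eq_one] at h
      exact h.symm
    rw [this]
    exact s.2
  choose H hH1 hH2 using h1
  have hN : (⨅ s, H s).FiniteIndex := Subgroup.finiteIndex_iInf hH1
  let N := (⨅ s, H s).normalCore
  have hNf : N.FiniteIndex := Subgroup.finiteIndex_normalCore _
  refine ⟨S ⊔ N, Subgroup.finiteIndex_of_le (le_sup_right : N ≤ S ⊔ N), le_sup_left, fun h => ?_⟩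
  rw [← SetLike.mem_coe, Subgroup.mul_normal] at h
  obtain ⟨s, hs, n, hn, hsn⟩ := h
  refine hH2 ⟨s, hs⟩ ?_
  have h2 : s⁻¹ * x = n := by
    rw [← hsn]
    group
  show s⁻¹ * x ∈ _
  rw [h2]
  exact (iInf_le H ⟨s, hs⟩) (Subgroup.normalCore_le _ hn)

theorem tf_of_melnikov {G : Type} [Group G] [Infinite G] (hG : IsMelnikov G) :
    ∀ g : G, ∀ m : ℕ, 0 < m → g ^ m = 1 → g = 1 := by
  intro g m hm hg
  by_contra hg1
  have ho : 0 < orderOf g := orderOf_pos_iff.mpr (isOfFinOrder_iff_pow_eq_one.mpr ⟨m, hm, hg⟩)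
  have ho1 : orderOf g ≠ 1 := fun h => hg1 (orderOf_eq_one_iff.mp h)
  obtain ⟨p, hp, q, hq⟩ := Nat.exists_prime_and_dvd ho1
  have hq0 : q ≠ 0 := by
    rintro rfl
    omega
  set h : G := g ^ q with hh
  have hoh : orderOf h = p := by
    rw [hh, orderOf_pow_of_dvd hq0 ⟨p, by rw [hq, mul_comm]⟩, hq,
      Nat.mul_div_cancel _ (Nat.pos_of_ne_zero hq0)]
  have hfin : Finite (Subgroup.zpowers h) := by
    apply Nat.finite_of_card_ne_zero
    rw [Nat.card_zpowers, hoh]
    exact hp.ne_zero
  have hinf : ¬ (Subgroup.zpowers h).FiniteIndex := by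
    intro h1
    have h2 := (Subgroup.zpowers h).card_mul_index
    rw [Nat.card_eq_zero_of_infinite (α := G), Nat.card_zpowers, hoh, mul_eq_zero] at h2
    exact h2.elim hp.ne_zero h1.index_ne_zero
  have hc := closed_of_finite hG.1 _ hfin
  obtain ⟨i⟩ := pres_cyc h
  have h1 : HasRel 1 G := by
    obtain ⟨y, R, hR, hR1, ⟨j⟩⟩ := hG.2 ⊤ inferInstance
    exact ⟨y, R, hR, hR1, ⟨Subgroup.topEquiv.symm.trans j⟩⟩
  refine (Pool.Agent.MelD.closed_not_OR 1 G h1 (fun N _ hN => hG.2 N hN) _ hinf hc p hp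
    ((FreeGroup.of (0 : Fin 1)) ^ orderOf h) ?_ ?_).false i
  · rw [hoh]
    intro h2
    have h3 := congrArg (FreeGroup.lift fun _ : Fin 1 => Multiplicative.ofAdd (1 : ℤ)) h2
    simp only [map_pow, map_one, FreeGroup.lift_apply_of, ← ofAdd_nsmul] at h3
    have h4 : (p • (1 : ℤ)) = 0 := h3
    simp [hp.ne_zero] at h4
  · rw [hoh]
    unfold Pool.Agent.MelD.VT
    exact Subgroup.mem_sup_right (Subgroup.subset_closure ⟨_, trivial, rfl⟩)

theorem locInd_of_cyc {k n : ℕ} [NeZero n] {G : Type} [Group G] (r : FreeGroup (Fin k))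
    (a : ZMod n → Fin k × Bool) (e : ℕ) (g : FreeGroup (Fin k)) (hr : CRed a) (hp : Prim a)
    (he : 1 ≤ e) (hrg : r = g * word a ^ e * g⁻¹) (i : G ≃* PresentedGroup ({r} : Set (FreeGroup (Fin k))))
    (htf : ∀ g : G, ∀ m : ℕ, 0 < m → g ^ m = 1 → g = 1) : LocInd G := by
  let ψ : FreeGroup (Fin k) →* G := i.symm.toMonoidHom.comp (PresentedGroup.mk {r})
  have hs : Function.Surjective ψ :=
    i.symm.surjective.comp (PresentedGroup.mk_surjective {r})
  have hψ : ∀ w, ψ w = 1 ↔ w ∈ Subgroup.normalClosure ({r} : Set (FreeGroup (Fin k))) := by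
    intro w
    show i.symm (PresentedGroup.mk {r} w) = 1 ↔ _
    rw [map_eq_one_iff _ i.symm.injective, PresentedGroup.mk_eq_one_iff]
  have hw : ψ (word a) = 1 := by
    refine htf _ e he ?_
    rw [← map_pow, hψ]
    have h1 : word a ^ e = g⁻¹ * r * g⁻¹⁻¹ := by
      rw [hrg]
      group
    rw [h1]
    exact Subgroup.normalClosure_normal.conj_mem _
      (Subgroup.subset_normalClosure (Set.mem_singleton _)) _
  have hk : ψ.ker = Subgroup.normalClosure {word a} := by
    apply le_antisymm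
    · intro w h
      rw [MonoidHom.mem_ker, hψ] at h
      refine (Subgroup.normalClosure_le_normal ?_ : Subgroup.normalClosure {r} ≤ _) h
      rintro _ rfl
      rw [hrg]
      exact Subgroup.normalClosure_normal.conj_mem _
        (Subgroup.pow_mem _ (Subgroup.subset_normalClosure (Set.mem_singleton _)) _) _
    · refine Subgroup.normalClosure_le_normal ?_
      rintro _ rfl
      exact hw
  intro H hH hne
  exact loc_ind a hr hp ψ hs hk H hH hne

end Pool.Agent.MelL
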